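import Pool.Agent.Helper2.HY.Exp
import Pool.Agent.Helper27.TF.Small
import Pool.Agent.Helper27.HY.A3
import Pool.Agent.Helper43.HY.B3
import Pool.Agent.Helper98.HY.Adj3
import Pool.Agent.Helper81.TF.Main

/-!
Project HY (MP_b8862a_ag): the Euclidean theorems.
-/

set_option linter.unusedSectionVars false

open Module PF

namespace TF

variable {E : Type*} [NormedAddCommGroup E] [InnerProductSpace ℝ E]

theorem Lg_pos (n : ℕ) : 1 ≤ Lg n := by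
  unfold Lg
  omega

theorem Lev3.sc {X : Finset E} {y : E} (h : Lev3 X y) {c : ℝ} (hc : 0 < c) : Lev3 (PF.sc c X) (c⁻¹ • y) := by
  intro x hx
  obtain ⟨x', hx', rfl⟩ := mem_sc.1 hx
  have h1 : (inner ℝ (c • x') (c⁻¹ • y) : ℝ) = inner ℝ x' y := by
    rw [inner_smul_left, inner_smul_right, conj_trivial, ← mul_assoc, mul_inv_cancel₀ hc.ne', one_mul]
  rw [h1]
  exact h x' hx'

theorem Lv.sc {X : Finset E} {n : ℕ} {y : E} {ρ : ℤ → ℕ} (h : Lv X n y ρ) {c : ℝ} (hc : 0 < c) :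
    Lv (PF.sc c X) n (c⁻¹ • y) ρ := by
  classical
  have h1 : ∀ x : E, (inner ℝ (c • x) (c⁻¹ • y) : ℝ) = inner ℝ x y := by
    intro x
    rw [inner_smul_left, inner_smul_right, conj_trivial, ← mul_assoc, mul_inv_cancel₀ hc.ne', one_mul]
  have hinv : ∀ x : E, c⁻¹ • c • x = x := fun x => by rw [smul_smul, inv_mul_cancel₀ hc.ne', one_smul]
  obtain ⟨hex, μ, hμ1, hμ2, hμ3⟩ := h
  refine ⟨fun x hx => ?_, fun x => μ (c⁻¹ • x), fun x hx => ?_, ?_, fun k => ?_⟩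
  · obtain ⟨x', hx', rfl⟩ := mem_sc.1 hx
    rw [h1]
    exact hex x' hx'
  · obtain ⟨x', hx', rfl⟩ := mem_sc.1 hx
    change 1 ≤ μ (c⁻¹ • c • x')
    rw [hinv]
    exact hμ1 x' hx'
  · rw [PF.sc, Finset.sum_image (fun x _ y _ h => smul_inj' hc h), ← hμ2]
    exact Finset.sum_congr rfl fun x _ => by rw [hinv]
  · rw [← hμ3 k, Finset.sum_filter, Finset.sum_filter, PF.sc, Finset.sum_image (fun x _ y _ h => smul_inj' hc h)]
    exact Finset.sum_congr rfl fun x _ => by rw [h1, hinv]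

/-- The highest weight is a root of maximal length and the dimension plus one is a square. -/
def AdjS (Φ : Finset E) (l : E) : Prop :=
  l ∈ Φ ∧ (∀ a ∈ Φ, (inner ℝ a a : ℝ) ≤ inner ℝ l l) ∧
    ∃ k : ℕ, finrank ℝ (Submodule.span ℝ (Φ : Set E)) + Φ.card + 1 = k ^ 2

/-- The highest weight is a root of maximal length; numbers of the roots of the three highest levels. -/
def AdjT (Φ : Finset E) (l : E) (n : ℕ) (ρ : ℤ → ℕ) (t : ℤ) : Prop :=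
  l ∈ Φ ∧ (∀ a ∈ Φ, (inner ℝ a a : ℝ) ≤ inner ℝ l l) ∧
    (n = finrank ℝ (Submodule.span ℝ (Φ : Set E)) + Φ.card → ∃ m : ℕ, m ^ 2 ≤ n ∧
      (ρ t ≤ 4 * m ∨ ρ (t - 1) ^ 2 ≤ 4 * ρ t * ρ (t - 2) + 100 * m ^ 3))

section sc

variable {Φ : Finset E} {c : ℝ} (hc : 0 < c)

include hc

theorem long_of_sc {l : E} (h : c • l ∈ PF.sc c Φ ∧ ∀ a ∈ PF.sc c Φ, (inner ℝ a a : ℝ) ≤ inner ℝ (c • l) (c • l)) :
    l ∈ Φ ∧ ∀ a ∈ Φ, (inner ℝ a a : ℝ) ≤ inner ℝ l l := by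
  obtain ⟨h1, h2⟩ := h
  refine ⟨(smul_mem_sc hc).1 h1, ?_⟩
  intro a ha
  have h4 := h2 (c • a) ((smul_mem_sc hc).2 ha)
  rw [inner_smul_left, inner_smul_right, inner_smul_left, inner_smul_right] at h4
  simp only [conj_trivial] at h4
  rw [← mul_assoc, ← mul_assoc] at h4
  exact le_of_mul_le_mul_left h4 (mul_pos hc hc)

end sc

/-- **Three levels.** -/
theorem euclid3 {ι : Type*} [Fintype ι] {Φ X : Finset (EuclideanSpace ℝ ι)} {n s : ℕ}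
    {l y : EuclideanSpace ℝ ι} (h : In Φ X n (8 * s) l y) (hsn : 2 * s ≤ n) (h3 : Lev3 X y)
    (hnum : 1000 * n ^ 2 * Lg n ^ 3 * Nat.gcd n (8 * s) < s ^ 3) (hfew : 24 * (10 ^ 27) ^ 2 * Nat.gcd n (8 * s) < n)
    (h5 : 5 * s < n) : 3 ≤ Φ.card ∧ (TypeB Φ X ∨ TypeD Φ X ∨ AdjS Φ l) := by
  obtain ⟨c, hc0, hNRS⟩ := exists_NRS h.rs
  have hIn := h.sc hc0
  have hsm := hIn.small hNRS
  rw [card_sc hc0] at hsm
  have hMc : 10 ^ 27 ≤ Φ.card := by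
    by_contra hlt
    push Not at hlt
    have h1 : Φ.card ^ 2 ≤ (10 ^ 27) ^ 2 := Nat.pow_le_pow_left hlt.le 2
    have h2 : Nat.gcd n (8 * s) * (24 * Φ.card ^ 2) ≤ Nat.gcd n (8 * s) * (24 * (10 ^ 27) ^ 2) :=
      Nat.mul_le_mul_left _ (Nat.mul_le_mul_left _ h1)
    have h3 : Nat.gcd n (8 * s) * (24 * (10 ^ 27) ^ 2) = 24 * (10 ^ 27) ^ 2 * Nat.gcd n (8 * s) := mul_comm _ _
    omega
  refine ⟨le_trans (by norm_num) hMc, ?_⟩
  obtain ⟨m, hm, hcase⟩ := classical9 (PF.sc c Φ) hNRS (by rw [card_sc hc0]; exact hMc)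
  have h3' := h3.sc hc0
  rcases hcase with ⟨u, hu⟩ | ⟨e, c', d, he⟩
  · rcases hIn.a3 h3' hu hm hsn with h1 | h1
    · omega
    · obtain ⟨k, hk⟩ := (num hm).2 u hu
      rw [span_sc hc0, card_sc hc0] at hk
      obtain ⟨h4, h5⟩ := long_of_sc hc0 h1
      exact Or.inr (Or.inr ⟨h4, h5, k, hk⟩)
  · rcases hIn.bcd3 h3' he hm hsn with h1 | h1 | h1 | h1
    · omega
    · omega
    · exact Or.inl (h1.of_sc hc0)
    · exact Or.inr (Or.inl (h1.of_sc hc0))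

/-- **At least five levels.** -/
theorem euclid4 {ι : Type*} [Fintype ι] {Φ X : Finset (EuclideanSpace ℝ ι)} {n T : ℕ}
    {l y : EuclideanSpace ℝ ι} {ρ : ℤ → ℕ} {t : ℤ} (h : In Φ X n T l y) (hn : 0 < n)
    (hg : 10 ^ 56 * Nat.gcd n T ^ 4 ≤ n) (hv : Lv X n y ρ) (ht : 2 ≤ t) (htop : ∀ k, t < k → ρ k = 0) :
    3 ≤ Φ.card ∧ (TypeB Φ X ∨ TypeD Φ X ∨ AdjS Φ l ∨ AdjT Φ l n ρ t) := by
  have hg0 : 1 ≤ Nat.gcd n T := Nat.gcd_pos_of_pos_left _ hn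
  have hp1 : Nat.gcd n T ≤ Nat.gcd n T ^ 4 := Nat.le_self_pow (by norm_num) _
  obtain ⟨c, hc0, hNRS⟩ := exists_NRS h.rs
  have hIn := h.sc hc0
  have hsm := hIn.small hNRS
  rw [card_sc hc0] at hsm
  obtain ⟨g, hgd⟩ : ∃ g, g = Nat.gcd n T := ⟨_, rfl⟩
  rw [← hgd] at hg hg0 hp1 hsm
  have hg4 : 1 ≤ g ^ 4 := Nat.one_le_pow _ _ hg0
  have hbig : ∀ K : ℕ, K < 10 ^ 56 → ¬ n ≤ K * g ^ 4 := by
    intro K hK hle
    have h1 : (K + 1) * g ^ 4 ≤ n := (Nat.mul_le_mul_right _ hK).trans hg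
    rw [add_mul, one_mul] at h1
    omega
  have hMc : 10 ^ 27 ≤ Φ.card := by
    by_contra hlt
    push Not at hlt
    have h1 : Φ.card ^ 2 ≤ (10 ^ 27) ^ 2 := Nat.pow_le_pow_left hlt.le 2
    have h2 : g * (24 * Φ.card ^ 2) ≤ g ^ 4 * (24 * (10 ^ 27) ^ 2) :=
      Nat.mul_le_mul hp1 (Nat.mul_le_mul_left _ h1)
    refine hbig (24 * (10 ^ 27) ^ 2) (by norm_num) ?_
    rw [mul_comm]
    exact hsm.trans h2
  refine ⟨le_trans (by norm_num) hMc, ?_⟩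
  obtain ⟨m, hm, hcase⟩ := classical9 (PF.sc c Φ) hNRS (by rw [card_sc hc0]; exact hMc)
  rcases hIn.cls hm hcase with h1 | h1 | h1 | h1
  · exfalso
    rw [← hgd] at h1
    exact hbig _ (by norm_num) h1
  · exact Or.inl (h1.of_sc hc0)
  · exact Or.inr (Or.inl (h1.of_sc hc0))
  · have h2 := long_of_sc hc0 h1
    rcases hcase with ⟨u, hu⟩ | ⟨e, c', d, he⟩
    · obtain ⟨k, hk⟩ := (num hm).2 u hu
      rw [span_sc hc0, card_sc hc0] at hk
      exact Or.inr (Or.inr (Or.inl ⟨h2.1, h2.2, k, hk⟩))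
    · refine Or.inr (Or.inr (Or.inr ⟨h2.1, h2.2, fun hnc => ?_⟩))
      have hfr := he.finrank (by omega : 2 ≤ m)
      have hn' : n = m + (PF.sc c Φ).card := by
        rw [← hfr, span_sc hc0, card_sc hc0]
        exact hnc
      have h3 := hIn.adj3 (hv.sc hc0) h1.1 h1.2 he hm hn' ht htop
      refine ⟨m, ?_, h3⟩
      have h4 := he.card
      have h5 : (2 : ℝ) * m * (m - 1) ≤ ((PF.sc c Φ).card : ℝ) := by
        rw [h4]
        split_ifs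
        · linarith
        · have : (0 : ℝ) ≤ m := Nat.cast_nonneg m
          linarith
      have h6 : ((m ^ 2 : ℕ) : ℝ) ≤ (n : ℝ) := by
        rw [hn']
        push_cast
        have h7 : (9 : ℝ) ≤ m := by exact_mod_cast hm
        nlinarith
      exact_mod_cast h6

end TF
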