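import Pool.Agent.Helper2.HY.Fin
import Pool.Agent.Helper55.UG.Fin
import Pool.Agent.Helper14.PF.Fin

/-!
Project HY (MP_b8862a_ag): hypersurfaces of even dimension.
-/

set_option linter.unusedSectionVars false

open Matrix Module

attribute [local instance 100] LieRing.ofAssociativeRing

namespace MH

namespace HY

/-- The number `n` of the vectors of `N + 2` integers between `1` and `d - 1` whose sum is divisible by `d` is such that
`n + 1` is not a square, and if `N ≠ 2`, a prime number `p > N + 2` divides `d - 2` exactly once. -/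
def Good (N d : ℕ) : Prop :=
  ¬ IsSquare (∑ p ∈ Finset.Icc (0 : ℤ) N, hyp N d p + 1) ∧
    (N = 2 ∨ ∃ p : ℕ, p.Prime ∧ N + 2 < p ∧ p ∣ d - 2 ∧ ¬ p ^ 2 ∣ d - 2)

/-- The three properties of the Hodge numbers that are used. -/
def Nums (n : Type*) [Fintype n] [DecidableEq n] (w : ℤ) (r : ℤ → ℕ) : Prop :=
  5 ≤ Fintype.card n ∧ NI.Indec w r ∧ CoreW n w r ∧
    ∀ D j : ℕ, 2 ≤ D → 2 ≤ j → Fintype.card n = D ^ j → (∀ p, D ^ (j - 1) ∣ r p) → False

/-- **Hypersurfaces.** -/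
theorem nums_hyp {N : ℕ} (hN : Even N) (h2 : 2 ≤ N) {d : ℕ} (hd : dz N ≤ d) (hgood : Good N d)
    {n : Type*} [Fintype n] [DecidableEq n] {Q : Matrix n n ℚ} {S : Finset ℤ} {P : ℤ → Matrix n n ℂ}
    (H : IsHW (N : ℤ) Q S P) (hP : ∀ p, (P p).rank = hyp N d p) : Nums n N (fun p => (P p).rank) := by
  obtain ⟨hsq, hcond⟩ := hgood
  obtain ⟨hnum, hg2, hd5, hn5, hne, hI2⟩ := hy_num hN h2 hd
  have hS : ∀ p, p ∉ S → hyp N d p = 0 := fun p hp => by rw [← hP p, H.supp p hp, Matrix.rank_zero]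
  have hcard : Fintype.card n = prm N d := by
    have h1 : ((∑ p ∈ S, (P p).rank : ℕ) : ℂ) = (Fintype.card n : ℂ) := by
      rw [Nat.cast_sum, ← Matrix.trace_one, ← H.sum, Matrix.trace_sum]
      refine Finset.sum_congr rfl fun p _ => ?_
      rw [trace_eq_rank (by rw [H.mul, if_pos rfl])]
    have h2 : ∑ p ∈ S, (P p).rank = Fintype.card n := by exact_mod_cast h1
    have h3 := sum_mom hS fun _ => 1
    simp only [mul_one] at h3
    rw [← h2, prm, ← h3]
    exact Finset.sum_congr rfl fun p _ => hP p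
  have hrank : (fun p => (P p).rank) = hyp N d := funext hP
  have hI : NI.Indec (N : ℤ) (fun p => (P p).rank) := by
    rw [hrank]
    rcases hcond with rfl | ⟨p, hp, hNp, h3, h4⟩
    · exact_mod_cast hI2 rfl
    · exact indec_hyp hN h2 hp hNp h3 h4 (by omega)
  obtain ⟨k, hk⟩ := hN
  have hk2 : N / 2 = k := by omega
  have hNk : (N : ℤ) = 2 * (k : ℤ) := by rw [hk]; push_cast; ring
  have hcore : CoreW n (N : ℤ) (fun p => (P p).rank) := by
    rw [hrank, hNk]
    refine CoreL.coreW (S := S) (coreL_hy n k (hyp N d) S hS ?_ ?_ ?_) (by omega) hS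
    · exact ⟨N, by omega, hne⟩
    · rw [hcard]
      have h4 : ∑ p ∈ S, hyp N d p * (2 * p - 2 * (k : ℤ)).natAbs ^ 2 = mom N d := by
        rw [sum_mom hS (fun p => (2 * p - 2 * (k : ℤ)).natAbs ^ 2), mom, hNk]
      rw [h4]
      rw [hk2] at hnum
      exact hnum
    · rw [hcard]
      exact hsq
  have hpow : ∀ D j : ℕ, 2 ≤ D → 2 ≤ j → Fintype.card n = D ^ j → (∀ p, D ^ (j - 1) ∣ (P p).rank) → False := by
    intro D j hD hj hDj hdiv
    have h3 : D ^ (j - 1) ∣ prm N d := Finset.dvd_sum fun p _ => by rw [← hP p]; exact hdiv p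
    have h4 : D ^ (j - 1) ∣ mom N d := Finset.dvd_sum fun p _ => Dvd.dvd.mul_right (by rw [← hP p]; exact hdiv p) _
    have h5 : D ^ (j - 1) ≤ Nat.gcd (prm N d) (mom N d) :=
      Nat.le_of_dvd (Nat.gcd_pos_of_pos_left _ (by omega)) (Nat.dvd_gcd h3 h4)
    have h6 : (D ^ (j - 1)) ^ 2 ≤ Nat.gcd (prm N d) (mom N d) ^ 2 := Nat.pow_le_pow_left h5 2
    have h7 : D ^ j ≤ (D ^ (j - 1)) ^ 2 := by
      rw [← pow_mul]
      exact Nat.pow_le_pow_right (by omega) (by omega)
    omega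
  exact ⟨by omega, hI, hcore, hpow⟩

open scoped ComplexOrder in
theorem rank_conj_hy {n : Type*} [Fintype n] [DecidableEq n] (A : Matrix n n ℂ) :
    (A.map (starRingEnd ℂ)).rank = A.rank := by
  have h1 : A.map (starRingEnd ℂ) = Aᴴᵀ := by
    ext i j
    rfl
  rw [h1, Matrix.rank_transpose, Matrix.rank_conjTranspose]

/-- **Three Hodge numbers.** -/
theorem nums_three {n : Type*} [Fintype n] [DecidableEq n] {Q : Matrix n n ℚ} {S : Finset ℤ} {P : ℤ → Matrix n n ℂ}
    (H : IsHW 2 Q S P)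
    (h3 : ∀ p, p ≠ 0 → p ≠ 1 → p ≠ 2 → P p = 0) {s : ℕ} (hs : (P 2).rank = s) (h5 : 5 * s < Fintype.card n)
    (hsq : ¬ IsSquare (Fintype.card n + 1)) (hg2 : Nat.gcd (Fintype.card n) (8 * s) ^ 2 < Fintype.card n)
    (hg : 24 * (10 ^ 27) ^ 2 * Nat.gcd (Fintype.card n) (8 * s) < Fintype.card n)
    (hlog : 1000 * Fintype.card n ^ 2 * TF.Lg (Fintype.card n) ^ 3 * Nat.gcd (Fintype.card n) (8 * s) < s ^ 3) :
    Nums n 2 (fun p => (P p).rank) := by
  classical
  have h02 : (P 0).rank = (P 2).rank := by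
    have h1 := H.conj 2
    rw [sub_self] at h1
    rw [← h1, rank_conj_hy]
  have hr : ∀ p, p ≠ 0 → p ≠ 1 → p ≠ 2 → (P p).rank = 0 := fun p h0 h1 h2 => by
    rw [h3 p h0 h1 h2, Matrix.rank_zero]
  have hS : ∀ p, p ∉ S → (P p).rank = 0 := fun p hp => by rw [H.supp p hp, Matrix.rank_zero]
  have hsum : ∀ f : ℤ → ℕ, ∑ p ∈ S, (P p).rank * f p = (P 1).rank * f 1 + s * f 0 + s * f 2 := by
    intro f
    have h1 : ∑ p ∈ S, (P p).rank * f p = ∑ p ∈ ({1, 0, 2} : Finset ℤ), (P p).rank * f p := by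
      apply Finset.sum_congr_of_eq_on_inter
      · intro p _ hp
        simp only [Finset.mem_insert, Finset.mem_singleton, not_or] at hp
        rw [hr p hp.2.1 hp.1 hp.2.2, zero_mul]
      · intro p _ hp
        rw [hS p hp, zero_mul]
      · intro p _ _
        rfl
    rw [h1, Finset.sum_insert (by decide), Finset.sum_pair (by decide), h02, hs]
    ring
  have hcard : Fintype.card n = (P 1).rank + 2 * s := by
    have h1 : ((∑ p ∈ S, (P p).rank : ℕ) : ℂ) = (Fintype.card n : ℂ) := by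
      rw [Nat.cast_sum, ← Matrix.trace_one, ← H.sum, Matrix.trace_sum]
      refine Finset.sum_congr rfl fun p _ => ?_
      rw [trace_eq_rank (by rw [H.mul, if_pos rfl])]
    have h2 : ∑ p ∈ S, (P p).rank = Fintype.card n := by exact_mod_cast h1
    have h4 := hsum fun _ => 1
    simp only [mul_one] at h4
    rw [← h2, h4]
    ring
  have hs0 : 0 < s := by
    by_contra hcon
    have h6 : s = 0 := by omega
    rw [h6] at hlog
    simp at hlog
  have hI : NI.Indec (2 : ℤ) (fun p => (P p).rank) := by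
    refine indec_three hr ?_
    rw [hs]
    omega
  have hcore : CoreW n 2 (fun p => (P p).rank) := by
    have h2 : (2 : ℤ) = 2 * 1 := by norm_num
    rw [h2]
    refine CoreL.coreW (S := S) (coreL_hy n 1 (fun p => (P p).rank) S hS ?_ ?_ hsq) (by omega) hS
    · exact ⟨2, by norm_num, by rw [hs]; omega⟩
    · left
      refine ⟨?_, ?_, ?_, ?_, ?_, ?_⟩
      · intro k hk
        by_contra hcon
        push Not at hcon
        exact hk (hr (k + 1) (by omega) (by omega) (by omega))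
      · norm_num
        exact h02
      · norm_num
        rw [hs]
        exact hs0
      · norm_num
        rw [hs]
        exact hlog
      · norm_num at hg ⊢
        rw [hs]
        exact hg
      · norm_num
        rw [hs]
        exact h5
  have hpow : ∀ D j : ℕ, 2 ≤ D → 2 ≤ j → Fintype.card n = D ^ j → (∀ p, D ^ (j - 1) ∣ (P p).rank) → False := by
    intro D j hD hj hDj hdiv
    have h3' : D ^ (j - 1) ∣ Fintype.card n := by
      rw [hDj]
      exact pow_dvd_pow D (by omega)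
    have h4 : D ^ (j - 1) ∣ 8 * s := Dvd.dvd.mul_left (by rw [← hs]; exact hdiv 2) _
    have h5' : D ^ (j - 1) ≤ Nat.gcd (Fintype.card n) (8 * s) :=
      Nat.le_of_dvd (Nat.gcd_pos_of_pos_left _ (by omega)) (Nat.dvd_gcd h3' h4)
    have h6 : (D ^ (j - 1)) ^ 2 ≤ Nat.gcd (Fintype.card n) (8 * s) ^ 2 := Nat.pow_le_pow_left h5' 2
    have h7 : D ^ j ≤ (D ^ (j - 1)) ^ 2 := by
      rw [← pow_mul]
      exact Nat.pow_le_pow_right (by omega) (by omega)
    omega
  exact ⟨by omega, hI, hcore, hpow⟩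

/-- **The conclusions.** -/
theorem concl {w : ℤ} (hw : Even w) {n : Type*} [Fintype n] [DecidableEq n] {Q : Matrix n n ℚ} {S : Finset ℤ}
    {P : ℤ → Matrix n n ℂ} (H : IsHW w Q S P)
    (hEnd : ∀ A : Matrix n n ℚ, (∀ p, toC A * P p = P p * toC A) → ∃ c : ℚ, A = c • (1 : Matrix n n ℚ))
    (hN : Nums n w (fun p => (P p).rank)) :
    (∀ g : GL n ℂ, g ∈ MT S P ↔ IsGQ w Q g) ∧
      ∀ (ℓ : ℕ) [Fact ℓ.Prime] (ι : ℚ_[ℓ] →+* ℂ) (Γ : Subgroup (GL n ℚ_[ℓ])) (R : ℤ → Matrix n n ℂ),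
        IsGalP w Q S P (Γ.map (Matrix.GeneralLinearGroup.map ι)) R →
        (∃ D : Subgroup (GL n ℚ), IsMon Q S P D ∧
          D.map (Matrix.GeneralLinearGroup.map (algebraMap ℚ ℚ_[ℓ])) ≤ Γ) ∨
        ((∀ d : ℕ, (∀ p, d ∣ (P p).rank) → d = 1) ∧ SemiS Γ ∧
          ∀ t, IsTateTensor (Γ.map (Matrix.GeneralLinearGroup.map ι)) 1 1 t → MTfix S P 1 1 t) →
        ∀ (a b : ℕ) (t : (Fin a ⊕ Fin b → n) → ℂ),
          IsTateTensor (Γ.map (Matrix.GeneralLinearGroup.map ι)) a b t ↔ MTfix S P a b t := by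
  obtain ⟨h5, hI, hcore, hpow⟩ := hN
  have hne : Nonempty n := Fintype.card_pos_iff.1 (by omega)
  have h3 := fun (X : Matrix n n ℂ) (hX : Xᵀ * toC Q + toC Q * X = 0) => kills_coreW H hEnd hI hcore hpow hX
  obtain ⟨m, rfl⟩ := hw.two_dvd
  refine ⟨fun g => H.MT_full2 h3 g, fun ℓ _ ι Γ R G hAB a b t => ?_⟩
  rcases hAB with ⟨D, hD, hle⟩ | ⟨hgcd, hss, h11⟩
  · refine H.mon55 h3 h5 G hD ?_ a b t
    refine le_trans (le_of_eq ?_) (Subgroup.map_mono hle)
    rw [mapC, Subgroup.map_map]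
    congr 1
    ext g i j
    simp [Matrix.GeneralLinearGroup.map_apply]
  · have H' := H.toHS
    have hMT : ∀ (g : GL n ℂ) (z : ℂ), (m = 0 → z = 1) →
        (g : Matrix n n ℂ)ᵀ * toC Q * (g : Matrix n n ℂ) = z ^ 2 • toC Q →
        (g : Matrix n n ℂ).det = z ^ Fintype.card n → g ∈ MT S P :=
      fun g z hz hg hd => zso_le_MT H' (fun g hg hd => so_le_MT_of H' h3 hg hd) hz hg hd
    exact tate_iff_core H' G.even (vIrr_of_potIrr ι (potIrr_of_t11 ι hss H hEnd h11)) hMT hI hcore.core hgcd a b t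

end HY

end MH
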