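import Pool.Agent.Helper27.TF.Frame
import Pool.Agent.Helper27.TF.Defs

/-!
Project HY (MP_b8862a_ag): hypersurfaces of even dimension. Definitions.
-/

set_option linter.unusedSectionVars false

open Module PF

namespace TF

variable {E : Type*} [NormedAddCommGroup E] [InnerProductSpace ℝ E]

/-- The binary logarithm, rounded up. -/
def Lg (n : ℕ) : ℕ := Nat.log 2 n + 1

/-- All levels of the weights are `-1`, `0`, `1`. -/
def Lev3 (X : Finset E) (y : E) : Prop :=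
  ∀ x ∈ X, (inner ℝ x y : ℝ) = -1 ∨ (inner ℝ x y : ℝ) = 0 ∨ (inner ℝ x y : ℝ) = 1

open Classical in
/-- The levels of the weights are integers, with the multiplicities `ρ k`, the sum of which is `n`. -/
def Lv (X : Finset E) (n : ℕ) (y : E) (ρ : ℤ → ℕ) : Prop :=
  (∀ x ∈ X, ∃ k : ℤ, (inner ℝ x y : ℝ) = k) ∧
    ∃ μ : E → ℕ, (∀ x ∈ X, 1 ≤ μ x) ∧ ∑ x ∈ X, μ x = n ∧
      ∀ k : ℤ, ∑ x ∈ X with (inner ℝ x y : ℝ) = (k : ℝ), μ x = ρ k

end TF
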