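import Pool.Agent.Helper2.HY.Euc
import Pool.Agent.Helper90.HY.Lv
import Pool.Agent.Helper81.TF.Core

/-!
Project HY (MP_b8862a_ag): the core theorem. A simple irreducible Lie algebra of skew endomorphisms which contains an
element with the integral eigenvalues `k` of multiplicities `ρ k` contains all skew endomorphisms, under numerical
conditions on `ρ`.
-/

set_option linter.unusedSectionVars false

open Module LieModule LieAlgebra LieAlgebra.IsKilling AddMonoidAlgebra MTP.MF PF PF.W PF.L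
open Pool.Agent.Helper54.MT (semisimple_of_diag exists_cartan_end killing_of)

attribute [local instance 100] LieRing.ofAssociativeRing

namespace TF

/-- The numerical condition for three levels. -/
def N3 (n : ℕ) (ρ : ℤ → ℕ) : Prop :=
  (∀ k, ρ k ≠ 0 → k = -1 ∨ k = 0 ∨ k = 1) ∧ ρ (-1) = ρ 1 ∧ 0 < ρ 1 ∧
    1000 * n ^ 2 * Lg n ^ 3 * Nat.gcd n (8 * ρ 1) < ρ 1 ^ 3 ∧
    24 * (10 ^ 27) ^ 2 * Nat.gcd n (8 * ρ 1) < n ∧ 5 * ρ 1 < n

/-- The numerical condition for the highest level `t ≥ 2`. -/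
def N4 (n T : ℕ) (ρ : ℤ → ℕ) (t : ℤ) : Prop :=
  2 ≤ t ∧ (∀ k, t < k → ρ k = 0) ∧ 10 ^ 56 * Nat.gcd n T ^ 4 ≤ n ∧ 16 * n < ρ t ^ 2 ∧
    ∀ m : ℕ, m ^ 2 ≤ n → 4 * ρ t * ρ (t - 2) + 100 * m ^ 3 < ρ (t - 1) ^ 2

theorem core_lv {K : Type*} [Field K] [CharZero K] [IsAlgClosed K] {V : Type*} [AddCommGroup V]
    [Module K V] [FiniteDimensional K V] {ω : LinearMap.BilinForm K V} (hω : ω.IsSymm ∨ ω.IsAlt) (hnd : ω.Nondegenerate)
    {L : LieSubalgebra K (Module.End K V)} (_hsimp : IsSimple K L)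
    (hirr : ∀ W : Submodule K V, (∀ x ∈ L, ∀ u ∈ W, x u ∈ W) → W = ⊥ ∨ W = ⊤)
    (hsk : ∀ x ∈ L, ∀ u v, ω (x u) v = -ω u (x v))
    (h : Module.End K V) (hh : h ∈ L) (hh0 : h ≠ 0) (ρ : ℤ → ℕ) (S : Finset ℤ)
    (hsup : (⨆ k ∈ S, Module.End.eigenspace h ((k : ℤ) : K)) = ⊤)
    (hr : ∀ k ∈ S, finrank K (Module.End.eigenspace h ((k : ℤ) : K)) = ρ k) (hS : ∀ k, k ∉ S → ρ k = 0)
    (hN : N3 (finrank K V) ρ ∨ ∃ t, N4 (finrank K V) (∑ k ∈ S, ρ k * (2 * k).natAbs ^ 2) ρ t)
    (hsq : ¬ IsSquare (finrank K V + 1))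
    (x : Module.End K V) (hx : ∀ u v, ω (x u) v = -ω u (x v)) : x ∈ L := by
  classical
  have hVn : Nontrivial V := by
    by_contra hcon
    rw [not_nontrivial_iff_subsingleton] at hcon
    apply LieAlgebra.IsSimple.non_abelian K (L := L)
    refine ⟨fun x y => Subtype.ext ?_⟩
    exact Subsingleton.elim _ _
  have hn0 : 0 < finrank K V := finrank_pos
  have hSy : MTP.IrrSymp ω L.toSubmodule := ⟨fun x hx y hy => L.lie_mem hx hy, fun x hx => hsk x hx, hirr⟩
  have hk : IsKilling K L := killing_of hnd hSy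
  have hdiag : (⨆ c : K, Module.End.eigenspace h c) = ⊤ := by
    rw [eq_top_iff, ← hsup]
    exact iSup₂_le fun p _ => le_iSup (fun c : K => Module.End.eigenspace h c) ((p : ℤ) : K)
  obtain ⟨H, hH, hyH⟩ := exists_cartan_end (L := L) ⟨h, hh⟩ (semisimple_of_diag hdiag)
  have hirrR : (rootSystem H).IsIrreducible := inferInstance
  have hne : Nonempty H.root := by
    by_contra hcon
    rw [not_nonempty_iff] at hcon
    have hN : Nontrivial H := RootPairing.IsIrreducible.nontrivial' (rootSystem H)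
    have h1 : (⊤ : Submodule K H) = ⊥ := by
      have h2 : (rootSystem H).corootSpan K = ⊤ := RootPairing.IsRootSystem.span_coroot_eq_top
      rw [← h2, RootPairing.corootSpan, Set.range_eq_empty, Submodule.span_empty]
    exact bot_ne_top h1.symm
  have hirr' : ∀ W : Submodule K V, (∀ x : L, ∀ u ∈ W, ⁅x, u⁆ ∈ W) → W = ⊥ ∨ W = ⊤ :=
    fun W hW => hirr W fun z hz w hw => hW ⟨z, hz⟩ w hw
  have hsk' : ∀ (x : L) (u v : V), ω ⁅x, u⁆ v = - ω u ⁅x, v⁆ := by
    intro x u v
    exact hsk x x.2 u v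
  have hfaith : ∀ x : L, (∀ u : V, ⁅x, u⁆ = 0) → x = 0 := by
    intro x hx
    apply Subtype.ext
    ext u
    exact hx u
  obtain ⟨m, ⟨B⟩⟩ := exists_WB (V := V) (H := H) hirr'
  have hcard : Fintype.card (Fin m) = finrank K V := by
    rw [Module.finrank_eq_card_basis B.v]
  have hI : Nonempty (Fin m) := by
    rw [← Fintype.card_pos_iff, hcard]
    exact finrank_pos
  obtain ⟨y', hy'⟩ : ∃ y' : H, y' = ⟨⟨h, hh⟩, hyH⟩ := ⟨_, rfl⟩
  have hact : ∀ i, h (B.v i) = B.w i y' • B.v i := by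
    intro i
    have h1 := B.lie_v i y'
    rw [hy'] at h1 ⊢
    exact h1
  have hy0 : y' ≠ 0 := by
    intro h0
    apply hh0
    rw [hy'] at h0
    have h1 := congrArg (fun z : H => ((z : L) : Module.End K V)) h0
    exact h1
  -- the eigenvalues
  have hex : ∀ i, ∃ q ∈ S, B.w i y' = ((q : ℤ) : K) := by
    intro i
    by_contra! hcon
    have h1 := Module.End.eigenspaces_iSupIndep h (B.w i y')
    have h2 : (⊤ : Submodule K V) ≤ ⨆ j, ⨆ (_ : j ≠ B.w i y'), Module.End.eigenspace h j := by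
      rw [← hsup]
      exact iSup₂_le fun p hp => le_iSup₂ (f := fun (j : K) (_ : j ≠ B.w i y') => Module.End.eigenspace h j)
        ((p : ℤ) : K) (hcon p hp).symm
    rw [top_le_iff] at h2
    rw [h2, disjoint_top] at h1
    have h3 : B.v i ∈ Module.End.eigenspace h (B.w i y') := by
      rw [Module.End.mem_eigenspace_iff]
      exact hact i
    rw [h1, Submodule.mem_bot] at h3
    exact B.v.ne_zero i h3
  choose q hqS hq using hex
  have hρ : ∀ k : ℤ, Fintype.card {i // q i = k} = ρ k := by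
    intro k
    by_cases hk : k ∈ S
    · rw [← hr k hk, finrank_eig_diag B.v h (fun i => B.w i y') hact, Fintype.card_subtype]
      congr 1
      ext i
      rw [Finset.mem_filter, Finset.mem_filter, hq i]
      constructor
      · rintro ⟨-, h2⟩
        exact ⟨Finset.mem_univ _, by rw [h2]⟩
      · rintro ⟨-, h2⟩
        exact ⟨Finset.mem_univ _, by exact_mod_cast h2⟩
    · rw [hS k hk, Fintype.card_eq_zero_iff]
      exact ⟨fun i => hk (i.2 ▸ hqS i.1)⟩
  have hsum : ∀ f : ℤ → ℤ, ∑ i, f (q i) = ∑ k ∈ S, (ρ k : ℤ) * f k := by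
    intro f
    rw [← Finset.sum_fiberwise_of_maps_to (s := Finset.univ) (t := S) (g := q) (fun i _ => hqS i)]
    refine Finset.sum_congr rfl fun p hp => ?_
    have h2 : ∑ i with q i = p, f (q i) = ∑ i with q i = p, f p := by
      refine Finset.sum_congr rfl fun i hi => ?_
      rw [(Finset.mem_filter.1 hi).2]
    rw [h2, Finset.sum_const, nsmul_eq_mul, ← hρ p, Fintype.card_subtype]
  obtain ⟨T, hTdef⟩ : ∃ T, T = ∑ k ∈ S, ρ k * (2 * k).natAbs ^ 2 := ⟨_, rfl⟩
  have hT : ((T : ℕ) : ℤ) = ∑ i, (2 * q i) ^ 2 := by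
    rw [hsum (fun k => (2 * k) ^ 2), hTdef]
    push_cast
    refine Finset.sum_congr rfl fun k _ => ?_
    rw [sq_abs]
  obtain ⟨b, t, z, hin, hTpos, hrank, htb, hlv⟩ := exists_in_lv B hirr' hfaith hnd hsk' hy0 q hq hT
  rw [hcard] at hin hlv
  have hlv' : Lv (PF.CC.Xw B) (finrank K V) z ρ := by
    have h1 : (fun k => Fintype.card {i // q i = k}) = ρ := funext hρ
    rw [← h1]
    exact hlv
  have hdimH : finrank ℝ (Submodule.span ℝ ((PF.CC.Ph (rootSystem H) : Finset (EuclideanSpace ℝ H.root)) :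
      Set (EuclideanSpace ℝ H.root))) + (PF.CC.Ph (rootSystem H)).card = finrank K L := by
    rw [hrank, card_Ph, add_comm (finrank K H), TF.L.card_root_eq H]
  have hcases : 3 ≤ (PF.CC.Ph (rootSystem H)).card ∧ (TypeB (PF.CC.Ph (rootSystem H)) (PF.CC.Xw B) ∨
      TypeD (PF.CC.Ph (rootSystem H)) (PF.CC.Xw B)) := by
    have hadjS : AdjS (PF.CC.Ph (rootSystem H)) (PF.CC.vec (PF.CC.wt B t)) → False := by
      rintro ⟨h4, h5, k, h6⟩
      have h7 := card_adj B hirr' hfaith b htb h4 h5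
      rw [hcard] at h7
      rw [hdimH, ← h7] at h6
      exact hsq ⟨k, by rw [h6, sq]⟩
    rcases hN with ⟨hN1, hN2, hN3, hN5, hN5', hN6⟩ | ⟨τ, hN1, hN2, hN3, hN4, hN5⟩
    · have hT8 : T = 8 * ρ 1 := by
        have h1 : ∀ k ∈ S, ρ k * (2 * k).natAbs ^ 2 = (if k = 1 then 4 * ρ 1 else 0) + (if k = -1 then 4 * ρ 1 else 0) := by
          intro k _
          by_cases hk0 : ρ k = 0
          · rw [hk0, zero_mul]
            by_cases hk1 : k = 1
            · rw [hk1] at hk0
              omega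
            · by_cases hk2 : k = -1
              · rw [hk2] at hk0
                omega
              · rw [if_neg hk1, if_neg hk2, add_zero]
          · rcases hN1 k hk0 with rfl | rfl | rfl
            · rw [if_neg (by norm_num), if_pos rfl, hN2]
              norm_num
              ring
            · norm_num
            · rw [if_pos rfl, if_neg (by norm_num)]
              norm_num
              ring
        have hS1 : (1 : ℤ) ∈ S := by
          by_contra hcon
          have := hS 1 hcon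
          omega
        have hS2 : (-1 : ℤ) ∈ S := by
          by_contra hcon
          have := hS (-1) hcon
          omega
        rw [hTdef, Finset.sum_congr rfl h1, Finset.sum_add_distrib, Finset.sum_ite_eq' S 1, Finset.sum_ite_eq' S (-1),
          if_pos hS1, if_pos hS2]
        ring
      have hlev3 : Lev3 (PF.CC.Xw B) z := by
        intro x hx
        obtain ⟨hex', μ, hμ1, -, hμ3⟩ := hlv'
        obtain ⟨k, hk⟩ := hex' x hx
        have h1 : ρ k ≠ 0 := by
          rw [← hμ3 k]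
          have h2 : μ x ≤ ∑ x ∈ PF.CC.Xw B with (inner ℝ x z : ℝ) = (k : ℝ), μ x :=
            Finset.single_le_sum (f := μ) (fun _ _ => Nat.zero_le _) (Finset.mem_filter.2 ⟨hx, hk⟩)
          have h3 := hμ1 x hx
          omega
        rcases hN1 k h1 with rfl | rfl | rfl
        · left; rw [hk]; norm_num
        · right; left; rw [hk]; norm_num
        · right; right; rw [hk]; norm_num
      rw [hT8] at hin
      obtain ⟨h3, h4⟩ := euclid3 hin (by omega) hlev3 hN5 hN5' hN6
      refine ⟨h3, ?_⟩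
      rcases h4 with h4 | h4 | h4
      · exact Or.inl h4
      · exact Or.inr h4
      · exact (hadjS h4).elim
    · obtain ⟨h3, h4⟩ := euclid4 hin hn0 (hTdef ▸ hN3) hlv' hN1 hN2
      refine ⟨h3, ?_⟩
      rcases h4 with h4 | h4 | h4 | ⟨h4, h5, h6⟩
      · exact Or.inl h4
      · exact Or.inr h4
      · exact (hadjS h4).elim
      · exfalso
        have h7 := card_adj B hirr' hfaith b htb h4 h5
        rw [hcard] at h7
        obtain ⟨m', hm', h8 | h8⟩ := h6 (by rw [hdimH, h7])
        · have h9 : ρ τ ^ 2 ≤ (4 * m') ^ 2 := Nat.pow_le_pow_left h8 2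
          have h10 : (4 * m') ^ 2 = 16 * m' ^ 2 := by ring
          omega
        · have h9 := hN5 m' hm'
          omega
  obtain ⟨h3, hBD⟩ := hcases
  rcases hω with hsymm | halt
  · rcases PF.CC.choose_le B hirr' hnd hsk' hBD with h2 | h2
    · exact absurd (TypeA_card h2) (by omega)
    · rw [hcard] at h2
      exact PF.CC.full_of_le hsymm hnd L.toSubmodule (fun z hz => hsk z hz) h2 x hx
  · rcases hBD with ht | ht
    · exfalso
      obtain ⟨N, y, hy, c, hc, hX, -⟩ := ht
      obtain ⟨i, hi⟩ := (PF.CC.mem_Xw B).1 ((hX 0).2 (Or.inl rfl))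
      have h0 : B.w i = 0 := by
        apply PF.C.toE_inj (PF.C.intl_w B i) PF.C.intl_zero
        rw [toE_w, hi, PF.C.toE_zero]
      obtain ⟨b⟩ := RootPairing.nonempty_base (rootSystem H)
      obtain ⟨d, hd, hdodd⟩ := odd_rho B hirr' hnd halt hsk' b
      have h1 := hd i
      rw [h0, LinearMap.zero_apply] at h1
      have h2 : d i = 0 := by exact_mod_cast h1.symm
      have h3 := hdodd i
      rw [h2] at h3
      exact absurd h3 (by decide)
    · rw [← XS_eq, ← PF.C.PhiS_eq] at ht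
      exact PF.C.typeD_sp B hirr' ht hnd halt hsk' hx

end TF
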