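import Pool.Agent.Helper21.HY.Defs

/-!
Project HY (MP_b8862a_ag): the primitive Betti number and the second moment of the Hodge numbers of a hypersurface.
-/

namespace MH.HY

/-- The primitive Betti number. -/
noncomputable def prm (N d : ℕ) : ℕ := ∑ p ∈ Finset.Icc (0 : ℤ) N, hyp N d p

/-- The second moment. -/
noncomputable def mom (N d : ℕ) : ℕ := ∑ p ∈ Finset.Icc (0 : ℤ) N, hyp N d p * (2 * p - N).natAbs ^ 2

end MH.HY
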