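import Pool.Agent.Helper21.TF.Long

/-!
Project HY (MP_b8862a_ag): root systems with at least `10 ^ 27` roots are classical.
-/

set_option linter.unusedSectionVars false

open Module PF

namespace TF

variable {E : Type*} [NormedAddCommGroup E] [InnerProductSpace ℝ E]

/-- Root systems with at least `10 ^ 27` roots are of type `A`, `B`, `C`, `D` and of rank at least eight. -/
theorem classical9 (Φ : Finset E) (h : PF.NRS Φ) (hM : 10 ^ 27 ≤ Φ.card) :
    ∃ m, 9 ≤ m ∧ ((∃ u : Fin m → E, FrA Φ m u) ∨ ∃ (e : Fin m → E) (c : ℝ) (d : ℕ), Fr Φ m e c d) := by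
  obtain ⟨R, hR⟩ : ∃ R : ℕ, R = 9 := ⟨_, rfl⟩
  rw [← hR]
  have hr10 : rf (max R 10) = 2796200 := by
    rw [hR]
    rfl
  have hM : (2 * rf (max R 10) + 2) ^ 2 + (2 * rf (max R 10) + 2) ^ 4 + 2 * R + 4 * R ^ 2 + 1 ≤ Φ.card := by
    refine le_trans ?_ hM
    rw [hr10, hR]
    norm_num
  clear hr10
  set k0 := max R 10 with hk0
  set r := rf k0 with hr
  have hc := card_le_Psi h
  by_cases hex : ∃ v ∈ Psi Φ, (Nb Φ v).Nonempty
  · obtain ⟨v, hv, hu⟩ := hex
    have hrk : r ≤ (Nb Φ v).card := by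
      by_contra hlt
      push Not at hlt
      have h1 := card_Psi_le h hv hu
      have h2 : (Psi Φ).card ≤ (2 * r + 2) ^ 2 := by
        rw [pow_two]
        exact h1.trans (Nat.mul_le_mul (by omega) (by omega))
      have h3 : (Psi Φ).card * (Psi Φ).card ≤ (2 * r + 2) ^ 4 := by
        calc (Psi Φ).card * (Psi Φ).card ≤ (2 * r + 2) ^ 2 * (2 * r + 2) ^ 2 := Nat.mul_le_mul h2 h2
          _ = (2 * r + 2) ^ 4 := by ring
      omega
    obtain ⟨T, hT, hTc, hTp⟩ := exists_clique h hv k0 (Nb Φ v) (Finset.Subset.refl _) hrk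
    obtain ⟨m, hm, u, M⟩ := exists_Mx h (hT.trans fun y hy => (mem_Nb.1 hy).1) hTc.ge hTp
    have hRm : R ≤ m := by
      have := le_max_left R 10
      omega
    have h10 : 10 ≤ m := by
      have := le_max_right R 10
      omega
    refine ⟨m, hRm, ?_⟩
    by_cases hno : ∀ x ∈ Psi Φ, ∀ i j, i ≠ j → ¬ Mx.Pr u x i j
    · left
      exact ⟨u, M.frA h h10 fun x hx => M.caseA h h10 hno hx⟩
    · right
      push Not at hno
      obtain ⟨x, hx, i, j, hij, hp⟩ := hno
      obtain ⟨e, he, hD⟩ := M.caseD h h10 hx hij hp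
      obtain ⟨d, hd⟩ := frD h h10 he hD
      exact ⟨e, 1, d, hd⟩
  · have H : ORS Φ := ⟨h, fun g hg => by
      rw [← Finset.not_nonempty_iff_eq_empty]
      exact fun hn => hex ⟨g, hg, hn⟩⟩
    obtain ⟨m, hm, e, c, hF⟩ := frB H
    refine ⟨m, ?_, Or.inr ⟨e, c, 1, hF⟩⟩
    by_contra hlt
    push Not at hlt
    have h2 : (Psi Φ).card ≤ 2 * R := by omega
    have h3 : (Psi Φ).card * (Psi Φ).card ≤ 4 * R ^ 2 := by
      calc (Psi Φ).card * (Psi Φ).card ≤ (2 * R) * (2 * R) := Nat.mul_le_mul h2 h2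
        _ = 4 * R ^ 2 := by ring
    omega

end TF
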