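import Pool.Agent.Helper55.PG.ThreeK
import Pool.Agent.Helper21.HY.Ind

/-!
Project HY (MP_b8862a_ag): three Hodge numbers.
-/

namespace MH.HY

/-- three Hodge numbers -/
theorem indec_three {r : ℤ → ℕ} (hr : ∀ p, p ≠ 0 → p ≠ 1 → p ≠ 2 → r p = 0) (h1 : r 1 ≠ 2 * r 2) : NI.Indec (2 : ℤ) r := by
  have h := indec_three55 (m := 1) (k := 1) one_pos (r := r) (s := r 2) (h := r 1) (by norm_num) rfl
    (fun p h2 h3 h4 => hr p (by simpa using h4) h3 (by simpa using h2)) h1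
  simpa using h

/-- surfaces: `h ≠ 2 s` -/
theorem indec_two {d : ℕ} (hd : 5 * hyp 2 d 2 < prm 2 d) : NI.Indec (2 : ℤ) (hyp 2 d) := by
  have h0 : hyp 2 d 0 = hyp 2 d 2 := by
    have h := hyp_symm 2 d 2
    norm_num at h
    exact h
  have h1 : prm 2 d = hyp 2 d 0 + hyp 2 d 1 + hyp 2 d 2 := by
    unfold prm
    have h2 : Finset.Icc (0 : ℤ) ((2 : ℕ) : ℤ) = {0, 1, 2} := by decide
    rw [h2, Finset.sum_insert (by decide), Finset.sum_pair (by decide)]
    ring
  refine indec_three (fun p h2 h3 h4 => ?_) (by omega)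
  by_contra hcon
  have h5 := hyp_supp hcon
  norm_num at h5
  omega

end MH.HY
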