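import Pool.Agent.Helper21.HY.Bin
import Pool.Agent.Helper21.HY.Ind
import Pool.Agent.Helper2.HY.DefN

/-!
Project HY (MP_b8862a_ag), block 6: the three highest Hodge numbers, `N ≥ 4`.
-/

set_option autoImplicit false

open Finset

namespace MH.HY

/-- `(1 + y) ^ K ≤ 1 + η` if `K y ≤ η / 2`, `η ≤ 1` -/
theorem pow_one_add_le {K : ℕ} {y η : ℝ} (hy : 0 ≤ y) (hη : η ≤ 1) (h : K * y ≤ η / 2) : (1 + y) ^ K ≤ 1 + η := by
  rcases Nat.eq_zero_or_pos K with rfl | hK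
  · rw [pow_zero]
    have : (0 : ℝ) ≤ η / 2 := by simpa using h
    linarith
  have hK1 : (1 : ℝ) ≤ K := by exact_mod_cast hK
  have hy2 : y ≤ 1 := by
    have : y ≤ K * y := by nlinarith
    linarith
  have h1 : 1 + (K : ℝ) * (-y) ≤ (1 + -y) ^ K := one_add_mul_le_pow (by linarith) K
  have h2 : (1 + y) ^ K * (1 + -y) ^ K ≤ 1 := by
    rw [← mul_pow]
    have h3 : (1 + y) * (1 + -y) = 1 - y ^ 2 := by ring
    rw [h3]
    exact pow_le_one₀ (by nlinarith) (by nlinarith)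
  have h4 : (1 + y) ^ K * (1 + (K : ℝ) * (-y)) ≤ 1 := by
    refine le_trans ?_ h2
    exact mul_le_mul_of_nonneg_left h1 (by positivity)
  have h5 : 1 - η / 2 ≤ 1 + (K : ℝ) * (-y) := by linarith
  have h6 : (1 + y) ^ K * (1 - η / 2) ≤ 1 := le_trans (mul_le_mul_of_nonneg_left h5 (by positivity)) h4
  have hη0 : 0 ≤ η := by
    have : 0 ≤ K * y := by positivity
    linarith
  have h7 : 1 ≤ (1 + η) * (1 - η / 2) := by nlinarith
  have h8 : (1 + y) ^ K * (1 - η / 2) ≤ (1 + η) * (1 - η / 2) := h6.trans h7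
  exact le_of_mul_le_mul_right h8 (by linarith)

/-- `E ^ K (1 - η) ≤ (E - c) ^ K` if `K c ≤ η E` -/
theorem pow_sub_ge {K : ℕ} {E c η : ℝ} (hE : 0 < E) (hcE : c ≤ E) (h : K * c ≤ η * E) :
    E ^ K * (1 - η) ≤ (E - c) ^ K := by
  have h1 : (E - c) = E * (1 + -(c / E)) := by
    field_simp
    ring
  rw [h1, mul_pow]
  refine mul_le_mul_of_nonneg_left ?_ (by positivity)
  have h2 : 1 + (K : ℝ) * (-(c / E)) ≤ (1 + -(c / E)) ^ K := by
    refine one_add_mul_le_pow ?_ K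
    have : c / E ≤ 1 := by
      rw [div_le_one hE]
      exact hcE
    linarith
  refine le_trans ?_ h2
  have h3 : (K : ℝ) * (c / E) ≤ η := by
    rw [← mul_div_assoc, div_le_iff₀ hE]
    exact h
  linarith

/-- `(E + c) ^ K ≤ E ^ K (1 + η)` if `K c ≤ η E / 2` -/
theorem pow_add_le {K : ℕ} {E c η : ℝ} (hE : 0 < E) (hc : 0 ≤ c) (hη : η ≤ 1) (h : K * c ≤ η / 2 * E) :
    (E + c) ^ K ≤ E ^ K * (1 + η) := by
  have h1 : (E + c) = E * (1 + c / E) := by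
    field_simp
  rw [h1, mul_pow]
  refine mul_le_mul_of_nonneg_left (pow_one_add_le (by positivity) hη ?_) (by positivity)
  rw [← mul_div_assoc, div_le_iff₀ hE]
  exact h

theorem fac_choose_le (n K : ℕ) : ((K.factorial : ℕ) : ℝ) * (n.choose K : ℝ) ≤ (n : ℝ) ^ K := by
  have h := Nat.choose_le_pow_div (α := ℝ) K n
  have hf : (0 : ℝ) < (K.factorial : ℕ) := by exact_mod_cast Nat.factorial_pos K
  rw [le_div_iff₀ hf] at h
  rw [mul_comm]
  exact h

theorem le_fac_choose (n K : ℕ) (h0 : K ≤ n + 1) : ((n : ℝ) + 1 - K) ^ K ≤ ((K.factorial : ℕ) : ℝ) * (n.choose K : ℝ) := by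
  have h := Nat.pow_le_choose (α := ℝ) K n
  have hf : (0 : ℝ) < (K.factorial : ℕ) := by exact_mod_cast Nat.factorial_pos K
  rw [div_le_iff₀ hf] at h
  rw [Nat.cast_sub h0] at h
  push_cast at h
  rw [mul_comm]
  exact h

/-- the numerical inequality -/
theorem num_uv {u v q k : ℝ} (hu : 0 ≤ u) (hq1 : 1 ≤ q) (hqu : q ≤ u) (hkq : k ≤ q) (hk0 : 0 ≤ k) (_hv0 : 0 ≤ v)
    (hv : 1024 * v ≤ 243 * u ^ 2) :
    4 * ((1 + 1 / 10 ^ 6) * v - (1 - 1 / 10 ^ 6) * q * u + (1 + 1 / 10 ^ 6) * (q * k / 2)) + 1 / 10 ^ 6 <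
      ((1 - 1 / 10 ^ 6) * u - (1 + 1 / 10 ^ 6) * q) ^ 2 := by
  have h1 : q * k ≤ q * u := by nlinarith
  have h2 : q * q ≤ u * u := by nlinarith
  have h3 : q * u ≤ u * u := by nlinarith
  have h4 : 0 ≤ q * k := by positivity
  have h5 : 1 ≤ u * u := by nlinarith
  have e1 : ((1 - 1 / 10 ^ 6) * u - (1 + 1 / 10 ^ 6) * q) ^ 2 =
      (u - q) ^ 2 - 2 * (1 / 10 ^ 6) * (u * u - q * q) + (1 / 10 ^ 6) ^ 2 * (u + q) ^ 2 := by ring
  rw [e1]
  have h6 : 0 ≤ (1 / 10 ^ 6 : ℝ) ^ 2 * (u + q) ^ 2 := by positivity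
  have h7 : (u - q) ^ 2 = u * u - 2 * (q * u) + q * q := by ring
  rw [h7]
  have h8 : 0 ≤ q * q := by positivity
  nlinarith

/-- BLOCK 6: the three highest Hodge numbers, `N ≥ 4`. -/
theorem top_hyp' {N : ℕ} (hN : Even N) (h4 : 4 ≤ N) {d : ℕ} (hd : 10 ^ 57 * (N + 2) ^ 8 ≤ d) :
    16 * prm N d < hyp N d N ^ 2 ∧
    ∀ m : ℕ, m ^ 2 ≤ prm N d →
      4 * hyp N d N * hyp N d ((N : ℤ) - 2) + 100 * m ^ 3 < hyp N d ((N : ℤ) - 1) ^ 2 := by
  obtain ⟨e, rfl⟩ : ∃ e, d = e + 1 := ⟨d - 1, by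
    have : 0 < 10 ^ 57 * (N + 2) ^ 8 := by positivity
    omega⟩
  obtain ⟨K, hK⟩ : ∃ K, K = N + 1 := ⟨_, rfl⟩
  have hK5 : 5 ≤ K := by omega
  have hNK : N + 2 = K + 1 := by omega
  -- sizes
  have he0 : 10 ^ 56 * (K + 1) ^ 8 ≤ e := by
    rw [hNK] at hd
    have h1 : 1 ≤ (K + 1) ^ 8 := Nat.one_le_pow _ _ (by omega)
    have h2 : 10 ^ 57 * (K + 1) ^ 8 = 10 * (10 ^ 56 * (K + 1) ^ 8) := by ring
    have h3 : 1 ≤ 10 ^ 56 * (K + 1) ^ 8 := Nat.one_le_iff_ne_zero.2 (by positivity)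
    omega
  have heK8 : 10 ^ 56 * K ^ 8 ≤ e := le_trans (Nat.mul_le_mul_left _ (Nat.pow_le_pow_left (by omega) 8)) he0
  have heK4 : 10 ^ 18 * K ^ 4 ≤ e := by
    refine le_trans ?_ heK8
    exact Nat.mul_le_mul (by norm_num) (Nat.pow_le_pow_right (by omega) (by norm_num))
  have heK2 : 10 ^ 10 * K ^ 2 ≤ e := by
    refine le_trans ?_ heK8
    exact Nat.mul_le_mul (by norm_num) (Nat.pow_le_pow_right (by omega) (by norm_num))
  have hKe : K ≤ e := by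
    refine le_trans ?_ heK2
    calc K ≤ K ^ 2 := Nat.le_self_pow (by norm_num) K
      _ ≤ 10 ^ 10 * K ^ 2 := Nat.le_mul_of_pos_left _ (by norm_num)
  obtain ⟨E, hE⟩ : ∃ E : ℝ, E = (e : ℝ) := ⟨_, rfl⟩
  obtain ⟨k, hk⟩ : ∃ k : ℝ, k = (K : ℝ) := ⟨_, rfl⟩
  have hk5 : 5 ≤ k := by rw [hk]; exact_mod_cast hK5
  have hE2 : 10 ^ 10 * k ^ 2 ≤ E := by rw [hE, hk]; exact_mod_cast heK2
  have hEpos : 0 < E := by
    have : (0 : ℝ) < 10 ^ 10 * k ^ 2 := by positivity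
    linarith
  have hkE : k ≤ E := by rw [hE, hk]; exact_mod_cast hKe
  obtain ⟨F, hF⟩ : ∃ F : ℝ, F = ((K.factorial : ℕ) : ℝ) := ⟨_, rfl⟩
  have hFpos : 0 < F := by rw [hF]; exact_mod_cast Nat.factorial_pos K
  obtain ⟨X, hX⟩ : ∃ X : ℝ, X = E ^ K := ⟨_, rfl⟩
  have hXpos : 0 < X := by rw [hX]; positivity
  -- `10 ^ 16 F ^ 4 ≤ X`
  have hFX : 10 ^ 16 * F ^ 4 ≤ X := by
    have h1 : K.factorial ≤ K ^ K := Nat.factorial_le_pow K
    have h2 : 10 ^ 16 * K.factorial ^ 4 ≤ e ^ K := by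
      calc 10 ^ 16 * K.factorial ^ 4 ≤ (10 ^ 18) ^ K * (K ^ K) ^ 4 := by
            refine Nat.mul_le_mul ?_ (Nat.pow_le_pow_left h1 4)
            calc 10 ^ 16 ≤ (10 ^ 18) ^ 1 := by norm_num
              _ ≤ (10 ^ 18) ^ K := Nat.pow_le_pow_right (by norm_num) (by omega)
        _ = (10 ^ 18) ^ K * (K ^ 4) ^ K := by rw [← pow_mul K K 4, ← pow_mul K 4 K, mul_comm K 4]
        _ = (10 ^ 18 * K ^ 4) ^ K := (Nat.mul_pow _ _ _).symm
        _ ≤ e ^ K := Nat.pow_le_pow_left heK4 K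
    rw [hX, hE, hF]
    exact_mod_cast h2
  clear hd he0 heK8 heK4 heK2
  have hlin : 10 ^ 7 * k ^ 2 + 10 ^ 8 * k ≤ E := by nlinarith
  have hk2 : 0 ≤ k ^ 2 := sq_nonneg k
  -- the numbers
  obtain ⟨a, ha⟩ : ∃ a, a = hyp N (e + 1) N := ⟨_, rfl⟩
  obtain ⟨b, hb⟩ : ∃ b, b = hyp N (e + 1) ((N : ℤ) - 1) := ⟨_, rfl⟩
  obtain ⟨c, hc⟩ : ∃ c, c = hyp N (e + 1) ((N : ℤ) - 2) := ⟨_, rfl⟩
  have ha' : a = e.choose K := by
    have h1 := hyp_symm N (e + 1) 0
    rw [sub_zero] at h1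
    rw [ha, h1, hyp_zero, hK]
  have hb' : (b : ℤ) = ((2 * e + 1).choose K : ℤ) - (K + 1) * ((e + 1).choose K : ℤ) := by
    have h1 := hyp_symm N (e + 1) 1
    have h2 := hyp_binom (N := N) (e := e) (j := 1) (by omega)
    rw [hb, h1]
    have h3 : (((1 : ℕ) : ℕ) : ℤ) = (1 : ℤ) := rfl
    rw [Nat.cast_one] at h2
    rw [h2]
    simp only [Finset.sum_range_succ, Finset.sum_range_zero]
    have e1 : (1 + 1 - 0) * e + 1 = 2 * e + 1 := by ring
    have e2 : (1 + 1 - 1) * e + 1 = e + 1 := by ring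
    rw [e1, e2, hNK, ← hK, Nat.choose_zero_right, Nat.choose_one_right]
    push_cast
    ring
  have hc' : (c : ℤ) = ((3 * e + 2).choose K : ℤ) - (K + 1) * ((2 * e + 2).choose K : ℤ) +
      ((K + 1).choose 2 : ℤ) * ((e + 2).choose K : ℤ) := by
    have h1 := hyp_symm N (e + 1) 2
    have h2 := hyp_binom (N := N) (e := e) (j := 2) (by omega)
    rw [hc, h1]
    rw [Nat.cast_ofNat] at h2
    rw [h2]
    simp only [Finset.sum_range_succ, Finset.sum_range_zero]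
    have e1 : (2 + 1 - 0) * e + 2 = 3 * e + 2 := by ring
    have e2 : (2 + 1 - 1) * e + 2 = 2 * e + 2 := by ring
    have e3 : (2 + 1 - 2) * e + 2 = e + 2 := by ring
    rw [e1, e2, e3, hNK, ← hK, Nat.choose_zero_right, Nat.choose_one_right]
    push_cast
    ring
  have hchoose2 : ((K + 1).choose 2 : ℝ) = (k + 1) * k / 2 := by
    rw [Nat.cast_choose_two, hk]
    push_cast
    ring
  -- real versions, multiplied by `K !`
  have hA1 : F * a ≤ X := by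
    rw [hF, ha', hX, hE]
    exact fac_choose_le e K
  have hA2 : X * (1 - 1 / 2) ≤ F * a := by
    have h1 := le_fac_choose e K (by omega)
    rw [ha', hF]
    refine le_trans ?_ h1
    rw [← hE, ← hk]
    refine le_trans ?_ (pow_le_pow_left₀ (by linarith) (by linarith : E - k ≤ E + 1 - k) K)
    rw [hX]
    refine pow_sub_ge hEpos hkE ?_
    rw [← hk]
    linarith
  have hB : X * ((1 - 1 / 10 ^ 6) * 2 ^ K - (1 + 1 / 10 ^ 6) * (k + 1)) ≤ F * b := by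
    have h1 := le_fac_choose (2 * e + 1) K (by omega)
    have h2 := fac_choose_le (e + 1) K
    rw [← hF] at h1 h2
    have hb2 : (b : ℝ) = ((2 * e + 1).choose K : ℝ) - (k + 1) * ((e + 1).choose K : ℝ) := by
      rw [hk]
      exact_mod_cast hb'
    have h3 : (2 * E) ^ K * (1 - 1 / 10 ^ 6) ≤ F * ((2 * e + 1).choose K : ℝ) := by
      refine le_trans ?_ h1
      push_cast
      rw [← hE, ← hk]
      refine le_trans ?_ (pow_le_pow_left₀ (by linarith) (by linarith : 2 * E - k ≤ 2 * E + 1 + 1 - k) K)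
      refine pow_sub_ge (by linarith) (by linarith) ?_
      rw [← hk]
      linarith
    have h4 : F * ((e + 1).choose K : ℝ) ≤ X * (1 + 1 / 10 ^ 6) := by
      refine le_trans h2 ?_
      push_cast
      rw [← hE, hX]
      refine pow_add_le hEpos (by norm_num) (by norm_num) ?_
      rw [← hk]
      linarith
    have h5 : (k + 1) * (F * ((e + 1).choose K : ℝ)) ≤ (k + 1) * (X * (1 + 1 / 10 ^ 6)) :=
      mul_le_mul_of_nonneg_left h4 (by linarith)
    rw [hb2]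
    rw [mul_pow, ← hX] at h3
    calc X * ((1 - 1 / 10 ^ 6) * 2 ^ K - (1 + 1 / 10 ^ 6) * (k + 1)) =
          2 ^ K * X * (1 - 1 / 10 ^ 6) - (k + 1) * (X * (1 + 1 / 10 ^ 6)) := by ring
      _ ≤ F * ((2 * e + 1).choose K : ℝ) - (k + 1) * (F * ((e + 1).choose K : ℝ)) := by linarith
      _ = F * (((2 * e + 1).choose K : ℝ) - (k + 1) * ((e + 1).choose K : ℝ)) := by ring
  have hC : F * c ≤ X * ((1 + 1 / 10 ^ 6) * 3 ^ K - (1 - 1 / 10 ^ 6) * (k + 1) * 2 ^ K +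
      (1 + 1 / 10 ^ 6) * ((k + 1) * k / 2)) := by
    have h1 := fac_choose_le (3 * e + 2) K
    have h2 := le_fac_choose (2 * e + 2) K (by omega)
    have h3 := fac_choose_le (e + 2) K
    rw [← hF] at h1 h2 h3
    have hc2 : (c : ℝ) = ((3 * e + 2).choose K : ℝ) - (k + 1) * ((2 * e + 2).choose K : ℝ) +
        ((k + 1) * k / 2) * ((e + 2).choose K : ℝ) := by
      rw [← hchoose2, hk]
      exact_mod_cast hc'
    have h4 : F * ((3 * e + 2).choose K : ℝ) ≤ (3 * E) ^ K * (1 + 1 / 10 ^ 6) := by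
      refine le_trans h1 ?_
      push_cast
      rw [← hE]
      refine pow_add_le (by linarith) (by norm_num) (by norm_num) ?_
      rw [← hk]
      linarith
    have h5 : (2 * E) ^ K * (1 - 1 / 10 ^ 6) ≤ F * ((2 * e + 2).choose K : ℝ) := by
      refine le_trans ?_ h2
      push_cast
      rw [← hE, ← hk]
      refine le_trans ?_ (pow_le_pow_left₀ (by linarith) (by linarith : 2 * E - k ≤ 2 * E + 2 + 1 - k) K)
      refine pow_sub_ge (by linarith) (by linarith) ?_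
      rw [← hk]
      linarith
    have h6 : F * ((e + 2).choose K : ℝ) ≤ X * (1 + 1 / 10 ^ 6) := by
      refine le_trans h3 ?_
      push_cast
      rw [← hE, hX]
      refine pow_add_le hEpos (by norm_num) (by norm_num) ?_
      rw [← hk]
      linarith
    have h7 : (k + 1) * ((2 * E) ^ K * (1 - 1 / 10 ^ 6)) ≤ (k + 1) * (F * ((2 * e + 2).choose K : ℝ)) :=
      mul_le_mul_of_nonneg_left h5 (by linarith)
    have h8 : ((k + 1) * k / 2) * (F * ((e + 2).choose K : ℝ)) ≤ ((k + 1) * k / 2) * (X * (1 + 1 / 10 ^ 6)) :=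
      mul_le_mul_of_nonneg_left h6 (by positivity)
    rw [mul_pow, ← hX] at h4 h7
    rw [hc2]
    calc F * (((3 * e + 2).choose K : ℝ) - (k + 1) * ((2 * e + 2).choose K : ℝ) +
          ((k + 1) * k / 2) * ((e + 2).choose K : ℝ)) =
          F * ((3 * e + 2).choose K : ℝ) - (k + 1) * (F * ((2 * e + 2).choose K : ℝ)) +
          ((k + 1) * k / 2) * (F * ((e + 2).choose K : ℝ)) := by ring
      _ ≤ 3 ^ K * X * (1 + 1 / 10 ^ 6) - (k + 1) * (2 ^ K * X * (1 - 1 / 10 ^ 6)) +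
          ((k + 1) * k / 2) * (X * (1 + 1 / 10 ^ 6)) := by linarith
      _ = _ := by ring
  have hprm : ((prm N (e + 1) : ℕ) : ℝ) ≤ X := by
    have h1 := prm_eq (N := N) (d := e + 1) hN (by omega)
    rw [Nat.add_sub_cancel, ← hK] at h1
    have h2 : prm N (e + 1) * (e + 1) ≤ e ^ K * (e + 1) := by
      rw [h1]
      have h3 : e ≤ e ^ K := Nat.le_self_pow (by omega) e
      calc e * (e ^ K + 1) = e ^ K * e + e := by ring
        _ ≤ e ^ K * e + e ^ K := by omega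
        _ = e ^ K * (e + 1) := by ring
    have h3 := Nat.le_of_mul_le_mul_right h2 (by omega)
    rw [hX, hE]
    exact_mod_cast h3
  rw [← ha, ← hb, ← hc]
  have hF1 : 1 ≤ F := by
    rw [hF]
    exact_mod_cast Nat.factorial_pos K
  constructor
  · -- `16 prm < a ^ 2`
    have h1 : (16 * prm N (e + 1) : ℝ) < (a : ℝ) ^ 2 := by
      have h2 : X / 2 ≤ F * a := by linarith
      have h3 : (X / 2) * (X / 2) ≤ (F * a) * (F * a) := mul_le_mul h2 h2 (by positivity) (by positivity)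
      have h4 : F ^ 2 ≤ F ^ 4 := pow_le_pow_right₀ hF1 (by norm_num)
      have h5 : 64 * F ^ 2 < X := by
        have h6 : 0 < F ^ 4 := by positivity
        nlinarith
      have h6 : F ^ 2 * (16 * X) < F ^ 2 * (a : ℝ) ^ 2 := by
        calc F ^ 2 * (16 * X) = 64 * F ^ 2 * (X / 4) := by ring
          _ < X * (X / 4) := mul_lt_mul_of_pos_right h5 (by positivity)
          _ = (X / 2) * (X / 2) := by ring
          _ ≤ (F * a) * (F * a) := h3
          _ = F ^ 2 * (a : ℝ) ^ 2 := by ring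
      have h7 : 16 * X < (a : ℝ) ^ 2 := lt_of_mul_lt_mul_left h6 (by positivity)
      linarith
    exact_mod_cast h1
  · intro m hm
    have hm2 : (m : ℝ) ^ 2 ≤ X := by
      have h1 : ((m ^ 2 : ℕ) : ℝ) ≤ (prm N (e + 1) : ℝ) := by exact_mod_cast hm
      push_cast at h1
      exact h1.trans hprm
    -- `100 F ^ 2 m ^ 3 ≤ X ^ 2 / 10 ^ 6`
    have hm3 : 100 * F ^ 2 * (m : ℝ) ^ 3 ≤ X ^ 2 * (1 / 10 ^ 6) := by
      have h1 : (100 * F ^ 2 * (m : ℝ) ^ 3) ^ 2 ≤ (X ^ 2 * (1 / 10 ^ 6)) ^ 2 := by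
        have h2 : ((m : ℝ) ^ 2) ^ 3 ≤ X ^ 3 := pow_le_pow_left₀ (by positivity) hm2 3
        calc (100 * F ^ 2 * (m : ℝ) ^ 3) ^ 2 = 10 ^ 4 * F ^ 4 * ((m : ℝ) ^ 2) ^ 3 := by ring
          _ ≤ 10 ^ 4 * F ^ 4 * X ^ 3 := by gcongr
          _ = (10 ^ 16 * F ^ 4) * (X ^ 3 / 10 ^ 12) := by ring
          _ ≤ X * (X ^ 3 / 10 ^ 12) := by gcongr
          _ = (X ^ 2 * (1 / 10 ^ 6)) ^ 2 := by ring
      exact le_of_sq_le_sq h1 (by positivity)
    obtain ⟨u, hu⟩ : ∃ u : ℝ, u = 2 ^ K := ⟨_, rfl⟩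
    obtain ⟨v, hv⟩ : ∃ v : ℝ, v = 3 ^ K := ⟨_, rfl⟩
    have hu0 : 0 < u := by rw [hu]; positivity
    have hv0 : 0 < v := by rw [hv]; positivity
    have hqu : k + 1 ≤ u := by
      have h1 : K + 1 ≤ 2 ^ K := Nat.lt_two_pow_self
      rw [hk, hu]
      exact_mod_cast h1
    have hvu : 1024 * v ≤ 243 * u ^ 2 := by
      obtain ⟨j, hj⟩ : ∃ j, K = 5 + j := ⟨K - 5, by omega⟩
      rw [hu, hv, hj]
      have h1 : ((3 : ℝ)) ^ j ≤ 4 ^ j := pow_le_pow_left₀ (by norm_num) (by norm_num) j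
      calc (1024 : ℝ) * 3 ^ (5 + j) = 248832 * 3 ^ j := by rw [pow_add]; ring
        _ ≤ 248832 * 4 ^ j := by gcongr
        _ = 243 * (2 ^ (5 + j)) ^ 2 := by
          rw [← pow_mul, mul_comm (5 + j) 2, pow_mul, pow_add]
          norm_num
          ring
    have hnum := num_uv (u := u) (v := v) (q := k + 1) (k := k) hu0.le (by linarith) hqu (by linarith) (by linarith)
      hv0.le hvu
    rw [← hu, ← hv] at hC
    rw [← hu] at hB
    obtain ⟨β, hβ⟩ : ∃ β, β = (1 - 1 / 10 ^ 6) * u - (1 + 1 / 10 ^ 6) * (k + 1) := ⟨_, rfl⟩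
    obtain ⟨γ, hγ⟩ : ∃ γ, γ = (1 + 1 / 10 ^ 6) * v - (1 - 1 / 10 ^ 6) * (k + 1) * u +
      (1 + 1 / 10 ^ 6) * ((k + 1) * k / 2) := ⟨_, rfl⟩
    rw [← hβ, ← hγ] at hnum
    rw [← hβ] at hB
    rw [← hγ] at hC
    have hβ0 : 0 ≤ β := by
      have h32 : 32 ≤ u := by
        have h1 : 2 ^ 5 ≤ 2 ^ K := Nat.pow_le_pow_right (by norm_num) hK5
        rw [hu]
        exact_mod_cast h1
      have h2K : 2 * (k + 1) ≤ u := by
        have h1 : ∀ j : ℕ, 2 * (5 + j + 1) ≤ 2 ^ (5 + j) := by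
          intro j
          induction j with
          | zero => norm_num
          | succ j ih =>
            rw [← add_assoc, pow_succ]
            omega
        obtain ⟨j, hj⟩ : ∃ j, K = 5 + j := ⟨K - 5, by omega⟩
        have h2 := h1 j
        rw [← hj] at h2
        rw [hk, hu]
        exact_mod_cast h2
      rw [hβ]
      linarith
    have hac : F ^ 2 * (4 * (a : ℝ) * c) ≤ X ^ 2 * (4 * γ) := by
      have h1 : (F * a) * (F * c) ≤ X * (F * c) := mul_le_mul_of_nonneg_right hA1 (by positivity)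
      have h2 : X * (F * c) ≤ X * (X * γ) := mul_le_mul_of_nonneg_left hC hXpos.le
      calc F ^ 2 * (4 * (a : ℝ) * c) = 4 * ((F * a) * (F * c)) := by ring
        _ ≤ 4 * (X * (X * γ)) := by linarith
        _ = X ^ 2 * (4 * γ) := by ring
    have hbb : X ^ 2 * β ^ 2 ≤ F ^ 2 * (b : ℝ) ^ 2 := by
      have h1 : (X * β) * (X * β) ≤ (F * b) * (F * b) := mul_le_mul hB hB (by positivity) (by positivity)
      calc X ^ 2 * β ^ 2 = (X * β) * (X * β) := by ring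
        _ ≤ (F * b) * (F * b) := h1
        _ = F ^ 2 * (b : ℝ) ^ 2 := by ring
    have hfin : (4 * a * c + 100 * m ^ 3 : ℝ) < (b : ℝ) ^ 2 := by
      have h1 : F ^ 2 * (4 * (a : ℝ) * c + 100 * (m : ℝ) ^ 3) < F ^ 2 * (b : ℝ) ^ 2 := by
        calc F ^ 2 * (4 * (a : ℝ) * c + 100 * (m : ℝ) ^ 3) =
              F ^ 2 * (4 * (a : ℝ) * c) + 100 * F ^ 2 * (m : ℝ) ^ 3 := by ring
          _ ≤ X ^ 2 * (4 * γ) + X ^ 2 * (1 / 10 ^ 6) := add_le_add hac hm3
          _ = X ^ 2 * (4 * γ + 1 / 10 ^ 6) := by ring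
          _ < X ^ 2 * β ^ 2 := mul_lt_mul_of_pos_left hnum (by positivity)
          _ ≤ _ := hbb
      exact lt_of_mul_lt_mul_left h1 (by positivity)
    exact_mod_cast hfin

end MH.HY
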