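import Pool.Agent.Helper2.HY.Core
import Pool.Agent.Helper2.HY.Top
import Pool.Agent.Helper99.HY.Surf
import Pool.Agent.Helper21.HY.Dens
import Pool.Agent.Helper2.HY.Ind3
import Pool.Agent.Helper14.TF.CoreT
import Pool.Agent.Helper98.PF.HodgeW
import Pool.Agent.Helper14.HY.Gcd

/-!
Project HY (MP_b8862a_ag): Hodge structures of even weight.
-/

set_option linter.unusedSectionVars false

open Matrix Module

attribute [local instance 100] LieRing.ofAssociativeRing

namespace MH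

/-- `CoreL` in even weight from the numerical conditions. -/
theorem coreL_hy (n : Type*) [Fintype n] (m₀ : ℤ) (r : ℤ → ℕ) (S : Finset ℤ)
    (hS : ∀ p, p ∉ S → r p = 0) (hne : ∃ p, p ≠ m₀ ∧ r p ≠ 0)
    (hN : TF.N3 (Fintype.card n) (fun k => r (k + m₀)) ∨
      ∃ t, TF.N4 (Fintype.card n) (∑ p ∈ S, r p * (2 * p - 2 * m₀).natAbs ^ 2) (fun k => r (k + m₀)) t)
    (hsq : ¬ IsSquare (Fintype.card n + 1)) : CoreL n (2 * m₀) r S := by
  classical
  intro ω hω hnd L hL hirr hsk h hh hsup hr x hx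
  have hcard : finrank ℂ (n → ℂ) = Fintype.card n := Module.finrank_fintype_fun_eq_card ℂ
  have key : ∀ p : ℤ, Module.End.eigenspace ((2 : ℂ)⁻¹ • h) (((p - m₀ : ℤ)) : ℂ) =
      Module.End.eigenspace h ((2 * p - 2 * m₀ : ℤ) : ℂ) := by
    intro p
    ext v
    rw [Module.End.mem_eigenspace_iff, Module.End.mem_eigenspace_iff, LinearMap.smul_apply]
    constructor
    · intro h1
      have h2 := congrArg (fun u => (2 : ℂ) • u) h1
      simp only [smul_smul] at h2
      rw [mul_inv_cancel₀ (two_ne_zero), one_smul] at h2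
      rw [h2]
      congr 1
      push_cast
      ring
    · intro h1
      rw [h1, smul_smul]
      congr 1
      push_cast
      ring
  have hinj : Function.Injective fun p : ℤ => p - m₀ := fun a b hab => by simpa using hab
  have hmem : ∀ k : ℤ, k ∈ S.image (fun p => p - m₀) ↔ k + m₀ ∈ S := by
    intro k
    rw [Finset.mem_image]
    constructor
    · rintro ⟨p, hp, rfl⟩
      rwa [sub_add_cancel]
    · intro hk
      exact ⟨k + m₀, hk, by ring⟩
  have hh0 : h ≠ 0 := by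
    rintro rfl
    obtain ⟨p, hp, hrp⟩ := hne
    have hpS : p ∈ S := by
      by_contra hcon
      exact hrp (hS p hcon)
    have h1 := hr p hpS
    apply hrp
    rw [← h1, Submodule.finrank_eq_zero, eq_bot_iff]
    intro v hv
    rw [Module.End.mem_eigenspace_iff, LinearMap.zero_apply] at hv
    have h2 : ((2 * p - 2 * m₀ : ℤ) : ℂ) ≠ 0 := by
      rw [Int.cast_ne_zero]
      omega
    exact (smul_eq_zero.1 hv.symm).resolve_left h2
  refine TF.core_lv hω hnd hL hirr hsk ((2 : ℂ)⁻¹ • h) (L.smul_mem _ hh) (smul_ne_zero (inv_ne_zero two_ne_zero) hh0)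
    (fun k => r (k + m₀)) (S.image fun p => p - m₀) ?_ ?_ ?_ ?_ (by rw [hcard]; exact hsq) x hx
  · rw [← hsup, Finset.iSup_finset_image]
    exact iSup_congr fun p => iSup_congr fun _ => key p
  · intro k hk
    rw [hmem] at hk
    have h1 := key (k + m₀)
    rw [add_sub_cancel_right] at h1
    rw [h1]
    exact hr _ hk
  · intro k hk
    rw [hmem] at hk
    exact hS _ hk
  · rw [hcard]
    rcases hN with hN | ⟨t, hN⟩
    · exact Or.inl hN
    · refine Or.inr ⟨t, ?_⟩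
      have h1 : ∑ k ∈ S.image (fun p => p - m₀), r (k + m₀) * (2 * k).natAbs ^ 2 =
          ∑ p ∈ S, r p * (2 * p - 2 * m₀).natAbs ^ 2 := by
        rw [Finset.sum_image fun a _ b _ hab => hinj hab]
        refine Finset.sum_congr rfl fun p _ => ?_
        rw [sub_add_cancel, mul_sub]
      rw [h1]
      exact hN

namespace HY

theorem sum_mom {N d : ℕ} {S : Finset ℤ} (hS : ∀ p, p ∉ S → hyp N d p = 0) (f : ℤ → ℕ) :
    ∑ p ∈ S, hyp N d p * f p = ∑ p ∈ Finset.Icc (0 : ℤ) N, hyp N d p * f p := by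
  classical
  have h1 : ∑ p ∈ S, hyp N d p * f p = ∑ p ∈ S ∪ Finset.Icc (0 : ℤ) N, hyp N d p * f p :=
    Finset.sum_subset Finset.subset_union_left fun p _ hp => by rw [hS p hp, zero_mul]
  have h2 : ∑ p ∈ Finset.Icc (0 : ℤ) N, hyp N d p * f p = ∑ p ∈ S ∪ Finset.Icc (0 : ℤ) N, hyp N d p * f p := by
    refine Finset.sum_subset Finset.subset_union_right fun p _ hp => ?_
    have h3 : hyp N d p = 0 := by
      by_contra hcon
      exact hp (Finset.mem_Icc.2 (hyp_supp hcon))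
    rw [h3, zero_mul]
  rw [h1, h2]

theorem le_prm {N d : ℕ} (hN : Even N) (hd : 2 ≤ d) : (d - 1) ^ (N + 1) ≤ 2 * prm N d := by
  have h1 := prm_eq (N := N) hN hd
  obtain ⟨t, rfl⟩ : ∃ t, d = t + 1 := ⟨d - 1, by omega⟩
  rw [Nat.add_sub_cancel] at h1 ⊢
  have ht : 1 ≤ t := by omega
  have h2 : t * t ^ (N + 1) ≤ prm N (t + 1) * (t + 1) := by
    rw [h1]
    exact Nat.mul_le_mul_left _ (Nat.le_succ _)
  have h3 : prm N (t + 1) * (t + 1) ≤ prm N (t + 1) * (2 * t) := Nat.mul_le_mul_left _ (by omega)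
  have h4 : t * t ^ (N + 1) ≤ t * (2 * prm N (t + 1)) := by
    calc t * t ^ (N + 1) ≤ prm N (t + 1) * (2 * t) := h2.trans h3
      _ = t * (2 * prm N (t + 1)) := by ring
  exact Nat.le_of_mul_le_mul_left h4 (by omega)

/-- The explicit bound for the degree. -/
def dz (N : ℕ) : ℕ := if N = 2 then 10 ^ 28 else 10 ^ 57 * (N + 2) ^ 8

/-- **The numerical conditions hold for large degrees.** -/
theorem hy_num {N : ℕ} (hN : Even N) (h2 : 2 ≤ N) {d : ℕ} (hd : dz N ≤ d) :
    (TF.N3 (prm N d) (fun k => hyp N d (k + (N / 2 : ℕ))) ∨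
      ∃ t, TF.N4 (prm N d) (mom N d) (fun k => hyp N d (k + (N / 2 : ℕ))) t) ∧
    Nat.gcd (prm N d) (mom N d) ^ 2 < prm N d ∧ 5 ≤ d ∧ 5 ≤ prm N d ∧ hyp N d N ≠ 0 ∧
      (N = 2 → NI.Indec (2 : ℤ) (hyp 2 d)) := by
  obtain ⟨A, hA⟩ : ∃ A, A = (N + 1) * (N + 2) := ⟨_, rfl⟩
  have hA1 : 1 ≤ A := by
    rw [hA]
    exact Nat.succ_le_of_lt (by positivity)
  have hbound : 2 * A ^ 2 + 12 ≤ d := by
    refine le_trans ?_ hd
    unfold dz
    by_cases h : N = 2
    · rw [if_pos h, hA, h]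
      norm_num
    · rw [if_neg h]
      have h3 : A ≤ (N + 2) ^ 2 := by
        rw [hA, sq]
        exact Nat.mul_le_mul_right _ (by omega)
      have h4 : A ^ 2 ≤ (N + 2) ^ 4 := by
        calc A ^ 2 ≤ ((N + 2) ^ 2) ^ 2 := Nat.pow_le_pow_left h3 2
          _ = (N + 2) ^ 4 := by ring
      have h5 : (N + 2) ^ 4 ≤ (N + 2) ^ 8 := Nat.pow_le_pow_right (by omega) (by norm_num)
      have h6 : 1 ≤ (N + 2) ^ 8 := Nat.one_le_pow _ _ (by omega)
      omega
  have hgcd : Nat.gcd (prm N d) (mom N d) ≤ A * (d - 1) := hA ▸ gcd_hyp hN h2 (by omega)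
  -- the square of the gcd
  have hsq : Nat.gcd (prm N d) (mom N d) ^ 2 < prm N d ∧ 5 ≤ prm N d := by
    have h3 := le_prm (N := N) hN (d := d) (by omega)
    have h4 : (d - 1) ^ 3 ≤ (d - 1) ^ (N + 1) := Nat.pow_le_pow_right (by omega) (by omega)
    have h5 : Nat.gcd (prm N d) (mom N d) ^ 2 ≤ A ^ 2 * (d - 1) ^ 2 := by
      rw [← mul_pow]
      exact Nat.pow_le_pow_left hgcd 2
    have h6 : (2 * A ^ 2 + 11) * (d - 1) ^ 2 ≤ (d - 1) ^ 3 := by
      rw [pow_succ (d - 1) 2, mul_comm]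
      exact Nat.mul_le_mul_left _ (by omega)
    have h7 : 1 ≤ (d - 1) ^ 2 := Nat.one_le_pow _ _ (by omega)
    constructor
    · nlinarith
    · nlinarith
  rcases Nat.lt_or_ge N 4 with h4 | h4
  · -- surfaces
    have hN2 : N = 2 := by
      obtain ⟨k, rfl⟩ := hN
      omega
    subst hN2
    obtain ⟨h5, h5', h6⟩ := surf_hyp' (d := d) (by
      unfold dz at hd
      rwa [if_pos rfl] at hd)
    have hpos : 0 < hyp 2 d 2 := by
      by_contra hcon
      have h7 : hyp 2 d 2 = 0 := by omega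
      rw [h7] at h5
      simp at h5
    refine ⟨Or.inl ⟨?_, ?_, ?_, ?_, ?_, ?_⟩, hsq.1, by omega, hsq.2, by exact_mod_cast hpos.ne', fun _ => indec_two h6⟩
    · intro k hk
      have h9 := hyp_supp hk
      norm_num at h9
      omega
    · have h9 := hyp_symm 2 d 0
      norm_num at h9 ⊢
      exact h9.symm
    · norm_num
      exact hpos
    · norm_num
      exact h5
    · norm_num at h5' ⊢
      exact h5'
    · norm_num
      exact h6
  · -- at least five Hodge numbers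
    have hd' : 10 ^ 57 * (N + 2) ^ 8 ≤ d := by
      unfold dz at hd
      rwa [if_neg (by omega)] at hd
    obtain ⟨k, hk⟩ := id hN
    have hk2 : N / 2 = k := by omega
    obtain ⟨h5, h6⟩ := top_hyp' hN h4 hd'
    have e0 : (k : ℤ) + ((N / 2 : ℕ) : ℤ) = N := by rw [hk2, hk]; push_cast; ring
    have e1 : (k : ℤ) - 1 + ((N / 2 : ℕ) : ℤ) = (N : ℤ) - 1 := by rw [hk2, hk]; push_cast; ring
    have e2 : (k : ℤ) - 2 + ((N / 2 : ℕ) : ℤ) = (N : ℤ) - 2 := by rw [hk2, hk]; push_cast; ring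
    refine ⟨Or.inr ⟨(k : ℤ), by omega, ?_, ?_, ?_, ?_⟩, hsq.1, by omega, hsq.2, ?_, fun h => by omega⟩
    · intro j hj
      by_contra hcon
      have h9 := (hyp_supp hcon).2
      omega
    · have h3 := le_prm (N := N) hN (d := d) (by omega)
      have h9 : (d - 1) ^ 5 ≤ (d - 1) ^ (N + 1) := Nat.pow_le_pow_right (by omega) (by omega)
      have h10 : Nat.gcd (prm N d) (mom N d) ^ 4 ≤ A ^ 4 * (d - 1) ^ 4 := by
        rw [← mul_pow]
        exact Nat.pow_le_pow_left hgcd 4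
      have h3' : A ≤ (N + 2) ^ 2 := by
        rw [hA, sq]
        exact Nat.mul_le_mul_right _ (by omega)
      have h4' : A ^ 4 ≤ (N + 2) ^ 8 := by
        calc A ^ 4 ≤ ((N + 2) ^ 2) ^ 4 := Nat.pow_le_pow_left h3' 4
          _ = (N + 2) ^ 8 := by ring
      have h6' : 1 ≤ (N + 2) ^ 8 := Nat.one_le_pow _ _ (by omega)
      have h7' : 2 * 10 ^ 56 * A ^ 4 ≤ d - 1 := by omega
      have h11 : (2 * 10 ^ 56 * A ^ 4) * (d - 1) ^ 4 ≤ (d - 1) ^ 5 := by
        rw [pow_succ (d - 1) 4, mul_comm]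
        exact Nat.mul_le_mul_left _ h7'
      have h12 : 10 ^ 56 * Nat.gcd (prm N d) (mom N d) ^ 4 ≤ 10 ^ 56 * (A ^ 4 * (d - 1) ^ 4) := Nat.mul_le_mul_left _ h10
      have h13 : 2 * (10 ^ 56 * (A ^ 4 * (d - 1) ^ 4)) = (2 * 10 ^ 56 * A ^ 4) * (d - 1) ^ 4 := by ring
      omega
    · simp only [e0]
      exact h5
    · intro m hm
      simp only [e0, e1, e2]
      exact h6 m hm
    · intro h0
      rw [h0] at h5
      simp at h5

end HY

end MH
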