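import Pool.Agent.Helper2.HY.Main

/-!
Project HY (MP_b8862a_ag): double planes.
-/

set_option linter.unusedSectionVars false

open Matrix Module

namespace MH

namespace HY

/-- The primitive Hodge numbers of a double covering of the plane branched along a smooth curve of degree `2 e`. -/
def dpl (e : ℕ) (p : ℤ) : ℕ :=
  if p = 1 then 3 * e * (e - 1) + 1 else if p = 0 ∨ p = 2 then (e - 1).choose 2 else 0

/-- the cube of the binary logarithm -/
theorem Lg_cube2 {n t : ℕ} (hn : n ≠ 0) (h : n ≤ t ^ 3) : TF.Lg n ^ 3 ≤ 729 * t := by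
  unfold TF.Lg
  obtain ⟨a, ha⟩ : ∃ a, a = Nat.log 2 n := ⟨_, rfl⟩
  have h1 : 2 ^ a ≤ n := by rw [ha]; exact Nat.pow_log_le_self 2 hn
  rw [← ha]
  obtain ⟨q, hq⟩ : ∃ q, q = a / 9 := ⟨_, rfl⟩
  have h2 : a + 1 ≤ 9 * (q + 1) := by omega
  have h3 : 9 * q ≤ a := by omega
  have h4 : ((q + 1) ^ 3) ^ 3 ≤ t ^ 3 := by
    calc ((q + 1) ^ 3) ^ 3 = (q + 1) ^ 9 := by ring
      _ ≤ (2 ^ q) ^ 9 := Nat.pow_le_pow_left (Nat.lt_two_pow_self) 9
      _ = 2 ^ (9 * q) := by rw [← pow_mul, mul_comm]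
      _ ≤ 2 ^ a := Nat.pow_le_pow_right (by norm_num) h3
      _ ≤ n := h1
      _ ≤ t ^ 3 := h
  have h5 : (q + 1) ^ 3 ≤ t := le_of_pow_le_pow_left₀ (by norm_num) (Nat.zero_le _) h4
  calc (a + 1) ^ 3 ≤ (9 * (q + 1)) ^ 3 := Nat.pow_le_pow_left h2 3
    _ = 729 * (q + 1) ^ 3 := by ring
    _ ≤ 729 * t := Nat.mul_le_mul_left _ h5

theorem two_choose_two (f : ℕ) : 2 * (f + 1).choose 2 = f * (f + 1) := by
  have h1 := Nat.choose_two_right (f + 1)
  have h2 : 2 ∣ (f + 1) * (f + 1 - 1) := by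
    rw [Nat.add_sub_cancel]
    rcases Nat.even_or_odd' f with ⟨k, rfl | rfl⟩
    · exact ⟨(2 * k + 1) * k, by ring⟩
    · exact ⟨(k + 1) * (2 * k + 1), by ring⟩
  rw [h1, Nat.mul_div_cancel' h2, Nat.add_sub_cancel, mul_comm]

/-- the greatest common divisor is a divisor of seven -/
theorem gcd_plane {f n s : ℕ} (hn : n = 4 * f ^ 2 + 10 * f + 7) (hs : 2 * s = f * (f + 1)) :
    Nat.gcd n (8 * s) ∣ 7 := by
  have h0 : 8 * s = 4 * ((f + 1) * f) := by
    calc 8 * s = 4 * (2 * s) := by ring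
      _ = 4 * ((f + 1) * f) := by rw [hs, mul_comm (f + 1) f]
  rw [h0]
  obtain ⟨h, hh⟩ : ∃ h, h = Nat.gcd n (4 * ((f + 1) * f)) := ⟨_, rfl⟩
  rw [← hh]
  have d1 : h ∣ n := by rw [hh]; exact Nat.gcd_dvd_left _ _
  have d2 : h ∣ 4 * ((f + 1) * f) := by rw [hh]; exact Nat.gcd_dvd_right _ _
  have c1 : Nat.Coprime n (f + 1) := by
    rw [← Nat.isCoprime_iff_coprime]
    refine ⟨1, -(4 * (f : ℤ) + 6), ?_⟩
    rw [hn]
    push_cast
    ring
  have c2 : Nat.Coprime n 4 := by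
    have h5 : Odd n := ⟨2 * f ^ 2 + 5 * f + 3, by rw [hn]; ring⟩
    have h6 : Nat.Coprime n (2 ^ 2) := Nat.Coprime.pow_right 2 (Nat.coprime_two_right.2 h5)
    exact h6
  have c3 : Nat.Coprime h 4 := Nat.Coprime.coprime_dvd_left d1 c2
  have c4 : Nat.Coprime h (f + 1) := Nat.Coprime.coprime_dvd_left d1 c1
  have d3 : h ∣ f := c4.dvd_of_dvd_mul_left (c3.dvd_of_dvd_mul_left d2)
  have d4 : h ∣ 4 * f ^ 2 + 10 * f := by
    have : 4 * f ^ 2 + 10 * f = f * (4 * f + 10) := by ring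
    rw [this]
    exact d3.mul_right _
  rw [hn] at d1
  exact (Nat.dvd_add_right d4).1 d1

/-- **Double planes.** -/
theorem nums_plane {e : ℕ} (he : 10 ^ 28 ≤ e) {n : Type*} [Fintype n] [DecidableEq n] {Q : Matrix n n ℚ}
    {S : Finset ℤ} {P : ℤ → Matrix n n ℂ} (H : IsHW 2 Q S P) (hP : ∀ p, (P p).rank = dpl e p) :
    Nums n 2 (fun p => (P p).rank) := by
  obtain ⟨f, rfl⟩ : ∃ f, e = f + 2 := ⟨e - 2, by omega⟩
  obtain ⟨s, hs⟩ : ∃ s, s = (f + 1).choose 2 := ⟨_, rfl⟩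
  have h2s : 2 * s = f * (f + 1) := by rw [hs, two_choose_two]
  have hf1 : f + 2 - 1 = f + 1 := by omega
  have hP2 : (P 2).rank = s := by
    rw [hP, dpl, if_neg (by norm_num), if_pos (Or.inr rfl), hf1, hs]
  have hP0 : (P 0).rank = s := by
    rw [hP, dpl, if_neg (by norm_num), if_pos (Or.inl rfl), hf1, hs]
  have hP1 : (P 1).rank = 3 * (f + 2) * (f + 1) + 1 := by
    rw [hP, dpl, if_pos rfl, hf1]
  have hz : ∀ p, p ≠ 0 → p ≠ 1 → p ≠ 2 → P p = 0 := by
    intro p h0 h1 h2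
    have h3 : (P p).rank = 0 := by
      rw [hP, dpl, if_neg h1, if_neg (by omega)]
    rw [Matrix.rank, Submodule.finrank_eq_zero, LinearMap.range_eq_bot] at h3
    exact (LinearEquiv.map_eq_zero_iff Matrix.toLin').1 h3
  have hcard : Fintype.card n = 4 * f ^ 2 + 10 * f + 7 := by
    have h1 : ((∑ p ∈ S, (P p).rank : ℕ) : ℂ) = (Fintype.card n : ℂ) := by
      rw [Nat.cast_sum, ← Matrix.trace_one, ← H.sum, Matrix.trace_sum]
      refine Finset.sum_congr rfl fun p _ => ?_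
      rw [trace_eq_rank (by rw [H.mul, if_pos rfl])]
    have h2 : ∑ p ∈ S, (P p).rank = Fintype.card n := by exact_mod_cast h1
    have h3 : ∑ p ∈ S, (P p).rank = ∑ p ∈ ({0, 1, 2} : Finset ℤ), (P p).rank := by
      apply Finset.sum_congr_of_eq_on_inter
      · intro p _ hp
        simp only [Finset.mem_insert, Finset.mem_singleton, not_or] at hp
        rw [hz p hp.1 hp.2.1 hp.2.2, Matrix.rank_zero]
      · intro p _ hp
        rw [H.supp p hp, Matrix.rank_zero]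
      · intro p _ _
        rfl
    rw [← h2, h3, Finset.sum_insert (by decide), Finset.sum_pair (by decide), hP0, hP1, hP2]
    have h4 : s + (3 * (f + 2) * (f + 1) + 1 + s) = 2 * s + 3 * (f + 2) * (f + 1) + 1 := by ring
    rw [h4, h2s]
    ring
  have hf : 10 ^ 27 ≤ f := by omega
  have hg7 : Nat.gcd (Fintype.card n) (8 * s) ≤ 7 :=
    Nat.le_of_dvd (by norm_num) (gcd_plane hcard h2s)
  have hff : f ≤ f * f := Nat.le_mul_of_pos_left f (by omega)
  have hn5 : Fintype.card n ≤ 5 * f ^ 2 := by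
    rw [hcard]
    nlinarith
  have hnf : Fintype.card n ≤ f ^ 3 := by
    refine le_trans hn5 ?_
    calc 5 * f ^ 2 ≤ f * f ^ 2 := Nat.mul_le_mul_right _ (by omega)
      _ = f ^ 3 := by ring
  have hs2 : f ^ 2 ≤ 2 * s := by
    rw [h2s]
    nlinarith
  refine nums_three H hz hP2 ?_ ?_ ?_ ?_ ?_
  · -- `5 s < n`
    have : 10 * s = 5 * (f * (f + 1)) := by rw [← h2s]; ring
    rw [hcard]
    nlinarith
  · -- no square
    rintro ⟨r, hr⟩
    rw [hcard] at hr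
    have h1 : 2 * f + 2 < r := by
      by_contra hcon
      push Not at hcon
      have := Nat.mul_le_mul hcon hcon
      nlinarith
    have h2 : r < 2 * f + 3 := by
      by_contra hcon
      push Not at hcon
      have := Nat.mul_le_mul hcon hcon
      nlinarith
    omega
  · have h1 : Nat.gcd (Fintype.card n) (8 * s) ^ 2 ≤ 7 ^ 2 := Nat.pow_le_pow_left hg7 2
    rw [hcard] at h1 ⊢
    nlinarith
  · have h1 : 24 * (10 ^ 27) ^ 2 * Nat.gcd (Fintype.card n) (8 * s) ≤ 24 * (10 ^ 27) ^ 2 * 7 :=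
      Nat.mul_le_mul_left _ hg7
    refine lt_of_le_of_lt h1 ?_
    rw [hcard]
    have h2 : 10 ^ 28 - 2 ≤ f := by omega
    have h3 : (10 ^ 28 - 2) * (10 ^ 28 - 2) ≤ f * f := Nat.mul_le_mul h2 h2
    have h4 : 24 * (10 ^ 27) ^ 2 * 7 < 4 * ((10 ^ 28 - 2) * (10 ^ 28 - 2)) := by norm_num
    nlinarith
  · have hL := Lg_cube2 (n := Fintype.card n) (t := f) (by rw [hcard]; omega) hnf
    obtain ⟨L, hL'⟩ : ∃ L, L = TF.Lg (Fintype.card n) ^ 3 := ⟨_, rfl⟩
    rw [← hL'] at hL ⊢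
    have h1 : 8 * (1000 * Fintype.card n ^ 2 * L * Nat.gcd (Fintype.card n) (8 * s)) ≤
        8 * (1000 * (5 * f ^ 2) ^ 2 * (729 * f) * 7) := by
      gcongr
    have h2 : 8 * (1000 * (5 * f ^ 2) ^ 2 * (729 * f) * 7) = 1020600000 * f ^ 5 := by ring
    have h3 : 1020600000 * f ^ 5 < f * f ^ 5 := Nat.mul_lt_mul_of_pos_right (by omega) (by positivity)
    have h4 : f * f ^ 5 = (f ^ 2) ^ 3 := by ring
    have h5 : (f ^ 2) ^ 3 ≤ (2 * s) ^ 3 := Nat.pow_le_pow_left hs2 3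
    have h6 : (2 * s) ^ 3 = 8 * s ^ 3 := by ring
    omega

/-- The Hodge numbers of a double plane have no common divisor if seven does not divide `e - 2`. -/
theorem dvd_plane {e d : ℕ} (he : 2 ≤ e) (h7 : ¬ 7 ∣ e - 2) (hd : ∀ p, d ∣ dpl e p) : d = 1 := by
  obtain ⟨f, rfl⟩ : ∃ f, e = f + 2 := ⟨e - 2, by omega⟩
  have hf1 : f + 2 - 1 = f + 1 := by omega
  have h2 : d ∣ (f + 1).choose 2 := by
    have h := hd 2
    rwa [dpl, if_neg (by norm_num), if_pos (Or.inr rfl), hf1] at h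
  have h1 : d ∣ 3 * (f + 2) * (f + 1) + 1 := by
    have h := hd 1
    rwa [dpl, if_pos rfl, hf1] at h
  have h3 : d ∣ 4 * f ^ 2 + 10 * f + 7 := by
    have h4 : 4 * f ^ 2 + 10 * f + 7 = 2 * (f + 1).choose 2 + (3 * (f + 2) * (f + 1) + 1) := by
      rw [two_choose_two]
      ring
    rw [h4]
    exact dvd_add (h2.mul_left 2) h1
  have h5 : d ∣ 7 := (Nat.dvd_gcd h3 (h2.mul_left 8)).trans (gcd_plane rfl (two_choose_two f))
  rcases (Nat.dvd_prime (by norm_num)).1 h5 with h6 | h6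
  · exact h6
  · exfalso
    subst h6
    apply h7
    rw [Nat.add_sub_cancel]
    have h8 : 7 ∣ 2 * (f + 1).choose 2 := h2.mul_left 2
    rw [two_choose_two] at h8
    rcases (by norm_num : Nat.Prime 7).dvd_mul.1 h8 with h9 | h9
    · exact h9
    · exfalso
      have h10 : 7 ∣ 3 * (f + 2) * (f + 1) := h9.mul_left _
      have h11 := (Nat.dvd_add_right h10).1 h1
      omega

end HY

end MH
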